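import Mathlib

/-!
# The sequence `2, 1/κ, ...` with `η_{j+1} + η_{j-1} = η_j / κ`, and its ratios
-/

set_option autoImplicit false

namespace Pool.Agent.Helper2.GD

variable {K : Type} [Field K]

/-- `2, 1/κ, ...` -/
def eta (κ : K) : ℕ → K
  | 0 => 2
  | 1 => κ⁻¹
  | (j + 2) => κ⁻¹ * eta κ (j + 1) - eta κ j

/-- the ratios `κ η_{j+1} / η_j` -/
def rho (κ : K) : ℕ → K
  | 0 => 2⁻¹
  | (j + 1) => 1 - κ ^ 2 / rho κ j

theorem eta_rho [CharZero K] {κ : K} (hκ : κ ≠ 0) : ∀ j, (∀ i < j, rho κ i ≠ 0) → κ * eta κ (j + 1) = rho κ j * eta κ j := by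
  intro j
  induction j with
  | zero =>
    intro _
    show κ * κ⁻¹ = 2⁻¹ * 2
    rw [mul_inv_cancel₀ hκ, inv_mul_cancel₀ two_ne_zero]
  | succ j ih =>
    intro h
    have h1 := ih fun i hi => h i (by omega)
    have h2 := h j (by omega)
    show κ * (κ⁻¹ * eta κ (j + 1) - eta κ j) = (1 - κ ^ 2 / rho κ j) * eta κ (j + 1)
    have e1 : κ * (κ⁻¹ * eta κ (j + 1) - eta κ j) = eta κ (j + 1) - κ * eta κ j := by
      rw [mul_sub, ← mul_assoc, mul_inv_cancel₀ hκ, one_mul]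
    have e2 : κ ^ 2 / rho κ j * eta κ (j + 1) = κ * eta κ j := by
      rw [div_mul_eq_mul_div, div_eq_iff h2]
      linear_combination κ * h1
    rw [e1, sub_mul, one_mul, e2]

/-- the function of the index with centre `c` -/
def hh (κ : K) (c i : ℤ) : K := eta κ (i - c).natAbs

theorem hh_self (κ : K) (c : ℤ) : hh κ c c = 2 := by
  unfold hh
  rw [sub_self]
  rfl

theorem hh_rec (κ : K) (c i : ℤ) : hh κ c (i + 1) + hh κ c (i - 1) = hh κ c i / κ := by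
  unfold hh
  rcases lt_trichotomy (i - c) 0 with h | h | h
  · obtain ⟨j, hj⟩ : ∃ j : ℕ, (i - c).natAbs = j + 1 := ⟨(i - c).natAbs - 1, by omega⟩
    have e1 : (i + 1 - c).natAbs = j := by omega
    have e2 : (i - 1 - c).natAbs = j + 2 := by omega
    rw [hj, e1, e2]
    show eta κ j + (κ⁻¹ * eta κ (j + 1) - eta κ j) = _
    rw [div_eq_mul_inv]
    ring
  · have e1 : (i + 1 - c).natAbs = 1 := by omega
    have e2 : (i - 1 - c).natAbs = 1 := by omega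
    rw [h, e1, e2]
    show κ⁻¹ + κ⁻¹ = 2 / κ
    rw [div_eq_mul_inv]
    ring
  · obtain ⟨j, hj⟩ : ∃ j : ℕ, (i - c).natAbs = j + 1 := ⟨(i - c).natAbs - 1, by omega⟩
    have e1 : (i + 1 - c).natAbs = j + 2 := by omega
    have e2 : (i - 1 - c).natAbs = j := by omega
    rw [hj, e1, e2]
    show (κ⁻¹ * eta κ (j + 1) - eta κ j) + eta κ j = _
    rw [div_eq_mul_inv]
    ring

/-- the sum of the two coefficients -/
theorem hh_sum {κ : K} (hκ : κ ≠ 0) {c i : ℤ} (hi : hh κ c i ≠ 0) :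
    κ * hh κ c (i + 1) / hh κ c i + κ * hh κ c (i - 1) / hh κ c i = 1 := by
  rw [← add_div, ← mul_add, hh_rec, mul_div_cancel₀ _ hκ, div_self hi]

section real
variable {k : ℝ}

theorem rho_bd (h0 : 0 < k) (h1 : k ≤ 1 / 2) : ∀ j, 1 / 2 ≤ rho k j ∧ rho k j ≤ 1 := by
  intro j
  induction j with
  | zero =>
    show 1 / 2 ≤ (2 : ℝ)⁻¹ ∧ (2 : ℝ)⁻¹ ≤ 1
    norm_num
  | succ j ih =>
    show 1 / 2 ≤ 1 - k ^ 2 / rho k j ∧ 1 - k ^ 2 / rho k j ≤ 1
    have h2 : 0 < rho k j := by linarith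
    have h3 : k ^ 2 / rho k j ≤ 1 / 2 := by
      rw [div_le_iff₀ h2]
      nlinarith
    have h4 : 0 ≤ k ^ 2 / rho k j := by positivity
    constructor <;> linarith

theorem rho_pos (h0 : 0 < k) (h1 : k ≤ 1 / 2) (j : ℕ) : 0 < rho k j := by
  have := (rho_bd h0 h1 j).1
  linarith

theorem eta_step (h0 : 0 < k) (h1 : k ≤ 1 / 2) (j : ℕ) : k * eta k (j + 1) = rho k j * eta k j :=
  eta_rho h0.ne' j fun i _ => (rho_pos h0 h1 i).ne'

theorem eta_pos (h0 : 0 < k) (h1 : k ≤ 1 / 2) : ∀ j, 0 < eta k j := by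
  intro j
  induction j with
  | zero => show (0 : ℝ) < 2; norm_num
  | succ j ih =>
    have h2 := eta_step h0 h1 j
    have h3 : 0 < k * eta k (j + 1) := by
      rw [h2]
      exact mul_pos (rho_pos h0 h1 j) ih
    exact (mul_pos_iff_of_pos_left h0).1 h3

theorem eta_mono (h0 : 0 < k) (h1 : k ≤ 1 / 2) (j : ℕ) : eta k j ≤ eta k (j + 1) := by
  have h2 := eta_step h0 h1 j
  have h3 := eta_pos h0 h1 j
  have h4 := (rho_bd h0 h1 j).1
  have h5 : k * eta k j ≤ k * eta k (j + 1) := by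
    rw [h2]
    exact mul_le_mul_of_nonneg_right (by linarith) h3.le
  exact le_of_mul_le_mul_left h5 h0

theorem two_le_eta (h0 : 0 < k) (h1 : k ≤ 1 / 2) : ∀ j, 2 ≤ eta k j := by
  intro j
  induction j with
  | zero => exact le_refl (2 : ℝ)
  | succ j ih => exact ih.trans (eta_mono h0 h1 j)

theorem inv_le_eta (h0 : 0 < k) (h1 : k ≤ 1 / 2) : ∀ j, k⁻¹ ≤ eta k (j + 1) := by
  intro j
  induction j with
  | zero => exact le_refl (k⁻¹)
  | succ j ih => exact ih.trans (eta_mono h0 h1 (j + 1))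

theorem hh_pos (h0 : 0 < k) (h1 : k ≤ 1 / 2) (c i : ℤ) : 0 < hh k c i := eta_pos h0 h1 _

theorem two_le_hh (h0 : 0 < k) (h1 : k ≤ 1 / 2) (c i : ℤ) : 2 ≤ hh k c i := two_le_eta h0 h1 _

/-- one of two neighbours is at least `1 / k` -/
theorem hh_mul (h0 : 0 < k) (h1 : k ≤ 1 / 2) (c i : ℤ) : 2 * k⁻¹ ≤ hh k c (i + 1) * hh k c i := by
  have a1 := two_le_hh h0 h1 c i
  have a2 := two_le_hh h0 h1 c (i + 1)
  have hk := inv_pos.2 h0
  by_cases h : c ≤ i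
  · obtain ⟨j, hj⟩ : ∃ j : ℕ, (i + 1 - c).natAbs = j + 1 := ⟨(i + 1 - c).natAbs - 1, by omega⟩
    have h2 : k⁻¹ ≤ hh k c (i + 1) := by
      unfold hh
      rw [hj]
      exact inv_le_eta h0 h1 j
    calc 2 * k⁻¹ = k⁻¹ * 2 := mul_comm _ _
      _ ≤ hh k c (i + 1) * hh k c i := mul_le_mul h2 a1 (by norm_num) (by linarith)
  · obtain ⟨j, hj⟩ : ∃ j : ℕ, (i - c).natAbs = j + 1 := ⟨(i - c).natAbs - 1, by omega⟩
    have h2 : k⁻¹ ≤ hh k c i := by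
      unfold hh
      rw [hj]
      exact inv_le_eta h0 h1 j
    exact mul_le_mul a2 h2 hk.le (by linarith)

end real

section complex
variable {κ : ℂ} {k w : ℝ}

/-- **The deviation of the ratios.** -/
theorem rho_dev (h0 : 0 < k) (h1 : k ≤ 1 / 2) (hw : 0 ≤ w) (hd : ‖κ ^ 2 - (k : ℂ) ^ 2‖ ≤ 11 / 5 * w) {n : ℕ}
    (hn : 100 * (n : ℝ) ^ 2 * w ≤ 1) : ∀ j ≤ n, ‖rho κ j - (rho k j : ℝ)‖ ≤ 12 * j * w ∧ 1 / 3 ≤ ‖rho κ j‖ := by
  intro j
  induction j with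
  | zero =>
    intro _
    have e1 : rho κ 0 = 2⁻¹ := rfl
    have e2 : rho k 0 = 2⁻¹ := rfl
    rw [e1, e2]
    push_cast
    norm_num
  | succ j ih =>
    intro hj
    obtain ⟨h2, h3⟩ := ih (by omega)
    have hb := rho_bd h0 h1 j
    have hb' := rho_bd h0 h1 (j + 1)
    have hρ : rho κ j ≠ 0 := by
      intro h
      rw [h, norm_zero] at h3
      linarith
    have hρ' : ((rho k j : ℝ) : ℂ) ≠ 0 := by exact_mod_cast (rho_pos h0 h1 j).ne'
    have hjn : ((j : ℝ) + 1) ≤ n := by exact_mod_cast hj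
    have hj0 : (0 : ℝ) ≤ j := Nat.cast_nonneg j
    have hjj : (j : ℝ) * (j + 1) * w ≤ 1 / 100 := by
      have h4 : (j : ℝ) * (j + 1) ≤ n ^ 2 := by nlinarith
      have h5 : (j : ℝ) * (j + 1) * w ≤ (n : ℝ) ^ 2 * w := mul_le_mul_of_nonneg_right h4 hw
      linarith
    have hjw : ((j : ℝ) + 1) * w ≤ 1 / 100 := by
      have h4 : ((j : ℝ) + 1) ≤ n ^ 2 := by nlinarith
      have h5 : ((j : ℝ) + 1) * w ≤ (n : ℝ) ^ 2 * w := mul_le_mul_of_nonneg_right h4 hw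
      linarith
    have hjw0 : (j : ℝ) * w ≤ 1 / 100 := by nlinarith
    -- lower bound of the modulus
    have h6 : rho k j - 12 * j * w ≤ ‖rho κ j‖ := by
      have h7 := norm_sub_norm_le ((rho k j : ℝ) : ℂ) (rho κ j)
      rw [norm_sub_rev, Complex.norm_real, Real.norm_of_nonneg (rho_pos h0 h1 j).le] at h7
      linarith
    have e1 : rho κ (j + 1) - (rho k (j + 1) : ℝ) =
        ((k : ℂ) ^ 2 / ((rho k j : ℝ) : ℂ) * (rho κ j - (rho k j : ℝ)) - (κ ^ 2 - (k : ℂ) ^ 2)) / rho κ j := by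
      show (1 - κ ^ 2 / rho κ j) - ((1 - k ^ 2 / rho k j : ℝ) : ℂ) = _
      push_cast
      field_simp
      ring
    have h8 : ‖(k : ℂ) ^ 2 / ((rho k j : ℝ) : ℂ) * (rho κ j - (rho k j : ℝ)) - (κ ^ 2 - (k : ℂ) ^ 2)‖ ≤ 1 / 2 * (12 * j * w) + 11 / 5 * w := by
      refine (norm_sub_le _ _).trans (add_le_add ?_ hd)
      rw [norm_mul]
      refine mul_le_mul ?_ h2 (norm_nonneg _) (by norm_num)
      have h9 : (k : ℂ) ^ 2 / ((rho k j : ℝ) : ℂ) = ((k ^ 2 / rho k j : ℝ) : ℂ) := by push_cast; rfl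
      have h10 : 0 ≤ k ^ 2 / rho k j := div_nonneg (sq_nonneg k) (rho_pos h0 h1 j).le
      rw [h9, Complex.norm_real, Real.norm_of_nonneg h10, div_le_iff₀ (rho_pos h0 h1 j)]
      nlinarith
    have hpos : 0 < ‖rho κ j‖ := norm_pos_iff.2 hρ
    have h11 : ‖rho κ (j + 1) - (rho k (j + 1) : ℝ)‖ ≤ 12 * ((j : ℝ) + 1) * w := by
      rw [e1, norm_div, div_le_iff₀ hpos]
      refine h8.trans ?_
      have h12 : 1 / 2 - 12 * j * w ≤ ‖rho κ j‖ := by linarith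
      have h13 : 12 * ((j : ℝ) + 1) * w * (1 / 2 - 12 * j * w) ≤ 12 * ((j : ℝ) + 1) * w * ‖rho κ j‖ :=
        mul_le_mul_of_nonneg_left h12 (by positivity)
      have h14 : 1 / 2 * (12 * (j : ℝ) * w) + 11 / 5 * w ≤ 12 * ((j : ℝ) + 1) * w * (1 / 2 - 12 * j * w) := by
        have h15 : 144 * ((j : ℝ) * (j + 1) * w) * w ≤ 144 * (1 / 100) * w :=
          mul_le_mul_of_nonneg_right (mul_le_mul_of_nonneg_left hjj (by norm_num)) hw
        have e : 12 * ((j : ℝ) + 1) * w * (1 / 2 - 12 * j * w) = 6 * j * w + 6 * w - 144 * ((j : ℝ) * (j + 1) * w) * w := by ring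
        rw [e]
        linarith
      linarith
    refine ⟨by push_cast; exact h11, ?_⟩
    have h7 := norm_sub_norm_le ((rho k (j + 1) : ℝ) : ℂ) (rho κ (j + 1))
    rw [norm_sub_rev, Complex.norm_real, Real.norm_of_nonneg (rho_pos h0 h1 (j + 1)).le] at h7
    linarith [hb'.1]

theorem eta_ne (h0 : 0 < k) (h1 : k ≤ 1 / 2) (hκ : κ ≠ 0) (hw : 0 ≤ w) (hd : ‖κ ^ 2 - (k : ℂ) ^ 2‖ ≤ 11 / 5 * w) {n : ℕ}
    (hn : 100 * (n : ℝ) ^ 2 * w ≤ 1) : ∀ j ≤ n + 1, eta κ j ≠ 0 := by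
  have hρ : ∀ j ≤ n, rho κ j ≠ 0 := fun j hj h => by
    have := (rho_dev h0 h1 hw hd hn j hj).2
    rw [h, norm_zero] at this
    linarith
  intro j
  induction j with
  | zero =>
    intro _
    show (2 : ℂ) ≠ 0
    norm_num
  | succ j ih =>
    intro hj h
    have h2 := eta_rho hκ j fun i hi => hρ i (by omega)
    rw [h, mul_zero] at h2
    exact (mul_ne_zero (hρ j (by omega)) (ih (by omega))) h2.symm

/-- the modulus, against the real sequence -/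
theorem norm_eta_le (h0 : 0 < k) (h1 : k ≤ 1 / 2) (hκ : k ≤ ‖κ‖) (hw : 0 ≤ w) (hd : ‖κ ^ 2 - (k : ℂ) ^ 2‖ ≤ 11 / 5 * w) {n : ℕ}
    (hn : 100 * (n : ℝ) ^ 2 * w ≤ 1) : ∀ j ≤ n, ‖eta κ j‖ ≤ (1 + 24 * (j : ℝ) ^ 2 * w) * eta k j := by
  have hκ0 : κ ≠ 0 := by
    intro h
    rw [h, norm_zero] at hκ
    linarith
  have hρ : ∀ j ≤ n, rho κ j ≠ 0 := fun j hj h => by
    have := (rho_dev h0 h1 hw hd hn j hj).2
    rw [h, norm_zero] at this
    linarith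
  intro j
  induction j with
  | zero =>
    intro _
    show ‖(2 : ℂ)‖ ≤ (1 + 24 * ((0 : ℕ) : ℝ) ^ 2 * w) * 2
    norm_num
  | succ j ih =>
    intro hj
    have h2 := ih (by omega)
    have h3 := eta_rho hκ0 j fun i hi => hρ i (by omega)
    have h4 := eta_step h0 h1 j
    have h5 := (rho_dev h0 h1 hw hd hn j (by omega)).1
    have hb := rho_bd h0 h1 j
    have hp := eta_pos h0 h1 j
    have hp' := eta_pos h0 h1 (j + 1)
    have hj0 : (0 : ℝ) ≤ j := Nat.cast_nonneg j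
    have hjn : ((j : ℝ) + 1) ≤ n := by exact_mod_cast hj
    have hjw : 24 * (j : ℝ) ^ 2 * w ≤ 1 := by
      have h6 : (j : ℝ) ^ 2 ≤ (n : ℝ) ^ 2 := by nlinarith
      have h7 : (j : ℝ) ^ 2 * w ≤ (n : ℝ) ^ 2 * w := mul_le_mul_of_nonneg_right h6 hw
      linarith
    have h6 : ‖rho κ j‖ ≤ rho k j * (1 + 24 * j * w) := by
      have h7 := norm_sub_norm_le (rho κ j) ((rho k j : ℝ) : ℂ)
      rw [Complex.norm_real, Real.norm_of_nonneg (rho_pos h0 h1 j).le] at h7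
      have h8 : 12 * (j : ℝ) * w ≤ rho k j * (24 * j * w) := by
        have h9 : 1 / 2 * (24 * (j : ℝ) * w) ≤ rho k j * (24 * j * w) := mul_le_mul_of_nonneg_right hb.1 (by positivity)
        linarith
      linarith
    -- `k ‖η_{j+1}‖ ≤ ‖κ‖ ‖η_{j+1}‖ = ‖ρ_j‖ ‖η_j‖`
    have h7 : k * ‖eta κ (j + 1)‖ ≤ ‖rho κ j‖ * ‖eta κ j‖ := by
      rw [← norm_mul, ← h3, norm_mul]
      exact mul_le_mul_of_nonneg_right hκ (norm_nonneg _)
    have h8 : ‖rho κ j‖ * ‖eta κ j‖ ≤ rho k j * (1 + 24 * j * w) * ((1 + 24 * (j : ℝ) ^ 2 * w) * eta k j) :=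
      mul_le_mul h6 h2 (norm_nonneg _) (mul_nonneg (rho_pos h0 h1 j).le (by positivity))
    have h9 : (1 + 24 * (j : ℝ) * w) * (1 + 24 * (j : ℝ) ^ 2 * w) ≤ 1 + 24 * ((j : ℝ) + 1) ^ 2 * w := by
      have h10 : 24 * (j : ℝ) * w * (24 * (j : ℝ) ^ 2 * w) ≤ 24 * (j : ℝ) * w * 1 := mul_le_mul_of_nonneg_left hjw (by positivity)
      have e : (1 + 24 * (j : ℝ) * w) * (1 + 24 * (j : ℝ) ^ 2 * w) = 1 + 24 * j * w + 24 * (j : ℝ) ^ 2 * w + 24 * (j : ℝ) * w * (24 * (j : ℝ) ^ 2 * w) := by ring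
      rw [e]
      have e2 : 1 + 24 * ((j : ℝ) + 1) ^ 2 * w = 1 + 24 * (j : ℝ) ^ 2 * w + 48 * j * w + 24 * w := by ring
      rw [e2]
      linarith
    have h10 : rho k j * (1 + 24 * j * w) * ((1 + 24 * (j : ℝ) ^ 2 * w) * eta k j) ≤
        k * ((1 + 24 * ((j : ℝ) + 1) ^ 2 * w) * eta k (j + 1)) := by
      have e : rho k j * (1 + 24 * j * w) * ((1 + 24 * (j : ℝ) ^ 2 * w) * eta k j) =
          ((1 + 24 * (j : ℝ) * w) * (1 + 24 * (j : ℝ) ^ 2 * w)) * (rho k j * eta k j) := by ring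
      have e2 : k * ((1 + 24 * ((j : ℝ) + 1) ^ 2 * w) * eta k (j + 1)) = (1 + 24 * ((j : ℝ) + 1) ^ 2 * w) * (k * eta k (j + 1)) := by ring
      rw [e, e2, h4]
      exact mul_le_mul_of_nonneg_right h9 (mul_pos (rho_pos h0 h1 j) hp).le
    have h11 : k * ‖eta κ (j + 1)‖ ≤ k * ((1 + 24 * ((j : ℝ) + 1) ^ 2 * w) * eta k (j + 1)) := by linarith
    have h12 := le_of_mul_le_mul_left h11 h0
    push_cast
    exact h12

end complex

end Pool.Agent.Helper2.GD
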