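import Pool.Agent.Helper57.EV2.Half
import Pool.Agent.Helper3.EVC.Defs
import Pool.Agent.Helper99.ZB.Zero

/-!
# From the strip without zeros to the roots of `half p`
-/

set_option autoImplicit false

namespace Pool.Agent.Helper2.GD

open Polynomial Pool.Agent.Helper57.EV Pool.Agent.Helper57.EV2 Pool.Agent.Helper99.ZB

/-- the zeros with positive real part have a large imaginary part -/
theorem im_ge {p : ℤ[X]} {T c₀ β : ℝ} (hβ : 0 < β) (hc : 4 * c₀ + β / 10 ≤ 1 / (√T + 1))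
    (hS : ∀ s : ℂ, s ≠ 0 → ‖s‖ < 1 → 4 * c₀ ≤ s.re → 10 * |s.im| ≤ β → aeval (s⁻¹ - s) p ≠ 0)
    (hfar : ∀ z : ℂ, aeval z p = 0 → ‖z‖ ^ 2 ≤ T) {z : ℂ} (hz : aeval z p = 0) (hre : 0 < z.re) : β / 5 ≤ |z.im| := by
  obtain ⟨s, hs0, hs1, hzs⟩ := exists_s z
  have hn0 : 0 < ‖s‖ := norm_pos_iff.2 hs0
  obtain ⟨m, hm⟩ : ∃ m, m = Complex.normSq s := ⟨_, rfl⟩
  have hm0 : 0 < m := by rw [hm]; exact Complex.normSq_pos.2 hs0
  have hmn : m = ‖s‖ ^ 2 := by rw [hm, Complex.normSq_eq_norm_sq]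
  have hzre : z.re = s.re * (1 / m - 1) := by
    rw [hzs, Complex.sub_re, Complex.inv_re, ← hm]
    ring
  have hzim : z.im = -(s.im * (1 / m + 1)) := by
    rw [hzs, Complex.sub_im, Complex.inv_im, ← hm]
    ring
  have hm1 : m ≤ 1 := by rw [hmn]; exact pow_le_one₀ (norm_nonneg _) hs1
  have h1m : 1 ≤ 1 / m := by rw [le_div_iff₀ hm0]; linarith
  have hs1' : ‖s‖ < 1 := by
    rcases lt_or_eq_of_le hs1 with h | h
    · exact h
    · exfalso
      rw [hmn, h] at hzre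
      norm_num at hzre
      linarith
  have habs : |z.im| = |s.im| * (1 / m + 1) := by
    rw [hzim, abs_neg, abs_mul, abs_of_pos (by positivity : 0 < 1 / m + 1)]
  by_cases h10 : 10 * |s.im| ≤ β
  · exfalso
    have hsz := hfar z hz
    have h2 : ‖z‖ ≤ √T := Real.le_sqrt_of_sq_le hsz
    have h3 : 1 / ‖s‖ - ‖s‖ ≤ ‖z‖ := by
      rw [hzs]
      have := norm_sub_norm_le (s⁻¹) s
      rw [norm_inv, inv_eq_one_div] at this
      exact this
    have h4 : 1 / ‖s‖ ≤ √T + 1 := by linarith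
    have h5 : 1 / (√T + 1) ≤ ‖s‖ := by
      have h6 : 0 < √T + 1 := by positivity
      rw [div_le_iff₀ h6]
      rw [div_le_iff₀ hn0] at h4
      linarith
    have hsre : 0 < s.re := by
      by_contra hcon
      push Not at hcon
      have : s.re * (1 / m - 1) ≤ 0 := mul_nonpos_of_nonpos_of_nonneg hcon (by linarith)
      linarith
    have h7 : ‖s‖ ≤ s.re + |s.im| := by
      have := Complex.norm_le_abs_re_add_abs_im s
      rwa [abs_of_pos hsre] at this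
    exact hS s hs0 hs1' (by linarith) h10 (by rw [← hzs]; exact hz)
  · push Not at h10
    rw [habs]
    nlinarith [abs_nonneg s.im]

section half

variable {p : ℤ[X]} (hnn : ∀ k, 0 ≤ p.coeff k) (hpar : ∀ j k, p.coeff j ≠ 0 → p.coeff k ≠ 0 → j % 2 = k % 2) (h0 : p ≠ 0)

include hnn hpar h0 in
/-- a root of `half p` is the square of a zero of `p` in the closed right half plane -/
theorem root_sq {ρ : ℂ} (hρ : ρ ∈ EVC.Z (half p)) : ∃ z : ℂ, z ^ 2 = ρ ∧ 0 ≤ z.re ∧ aeval z p = 0 ∧ z ≠ 0 := by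
  have h2 : aeval ρ (half p) = 0 := by
    unfold EVC.Z at hρ
    have h3 := (mem_roots'.1 hρ).2
    rw [IsRoot.def, eval_map_algebraMap] at h3
    exact h3
  have hρ0 : ρ ≠ 0 := by
    rintro rfl
    have h3 := half_one hnn h0
    have h4 : aeval (0 : ℂ) (half p) = (((half p).coeff 0 : ℝ) : ℂ) := by
      rw [aeval_def, eval₂_at_zero]
      rfl
    rw [h4] at h2
    have h5 : (half p).coeff 0 = 0 := by exact_mod_cast h2
    linarith
  obtain ⟨z, hz⟩ := IsAlgClosed.exists_pow_nat_eq ρ (n := 2) (by norm_num)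
  have hz0 : z ≠ 0 := by
    rintro rfl
    rw [zero_pow two_ne_zero] at hz
    exact hρ0 hz.symm
  have key : ∀ z : ℂ, z ^ 2 = ρ → aeval z p = 0 := fun z hz => by
    rw [aeval_eq hpar h0 z, hz, h2, mul_zero]
  rcases le_total 0 z.re with h | h
  · exact ⟨z, hz, h, key z hz, hz0⟩
  · refine ⟨-z, by rw [neg_sq, hz], by rw [Complex.neg_re]; linarith, key (-z) (by rw [neg_sq, hz]), neg_ne_zero.2 hz0⟩

include hnn hpar h0 in
/-- **Distance from the positive axis.** -/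
theorem dist_half {β T : ℝ} (hβ : 0 < β) (hT : 0 < T) (hβT : β ≤ √T) (him : ∀ z : ℂ, aeval z p = 0 → 0 < z.re → β ≤ |z.im|)
    (hfar : ∀ z : ℂ, aeval z p = 0 → ‖z‖ ^ 2 ≤ T) {ρ : ℂ} (hρ : ρ ∈ EVC.Z (half p)) {r : ℝ} (hr : 0 < r) :
    β / √T * (r + ‖ρ‖) ≤ ‖(r : ℂ) - ρ‖ := by
  obtain ⟨z, hz, hre, hz0, hzn⟩ := root_sq hnn hpar h0 hρ
  obtain ⟨x, hx⟩ : ∃ x, x = z.re := ⟨_, rfl⟩
  obtain ⟨y, hy⟩ : ∃ y, y = z.im := ⟨_, rfl⟩
  obtain ⟨R, hR⟩ : ∃ R, R = ‖ρ‖ := ⟨_, rfl⟩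
  have hsT : 0 < √T := Real.sqrt_pos.2 hT
  have hRz : R = ‖z‖ ^ 2 := by rw [hR, ← hz, norm_pow]
  have hRxy : R = x ^ 2 + y ^ 2 := by
    rw [hRz, ← Complex.normSq_eq_norm_sq, Complex.normSq_apply, ← hx, ← hy]
    ring
  have hR0 : 0 < R := by
    rw [hRz]
    have := norm_pos_iff.2 hzn
    positivity
  have hρre : ρ.re = x ^ 2 - y ^ 2 := by
    rw [← hz, pow_two, Complex.mul_re, ← hx, ← hy]
    ring
  have hρim : ρ.im = 2 * x * y := by
    rw [← hz, pow_two, Complex.mul_im, ← hx, ← hy]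
    ring
  have hsq : ‖(r : ℂ) - ρ‖ ^ 2 = (r - (x ^ 2 - y ^ 2)) ^ 2 + (2 * x * y) ^ 2 := by
    rw [← Complex.normSq_eq_norm_sq, Complex.normSq_apply, Complex.sub_re, Complex.sub_im, Complex.ofReal_re, Complex.ofReal_im, hρre, hρim]
    ring
  have hkey : y ^ 2 * (r + R) ^ 2 ≤ R * ‖(r : ℂ) - ρ‖ ^ 2 := by
    rw [hsq]
    have e : R * ((r - (x ^ 2 - y ^ 2)) ^ 2 + (2 * x * y) ^ 2) - y ^ 2 * (r + R) ^ 2 = x ^ 2 * (r - R) ^ 2 := by
      rw [hRxy]
      ring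
    have := mul_nonneg (sq_nonneg x) (sq_nonneg (r - R))
    linarith
  have hy2 : β ^ 2 / T * R ≤ y ^ 2 := by
    rcases eq_or_lt_of_le hre with h | h
    · have hx0 : x = 0 := by rw [hx]; exact h.symm
      have h1 : R = y ^ 2 := by rw [hRxy, hx0]; ring
      rw [← h1]
      have h2 : β ^ 2 / T ≤ 1 := by
        rw [div_le_one hT]
        calc β ^ 2 ≤ √T ^ 2 := pow_le_pow_left₀ hβ.le hβT 2
          _ = T := Real.sq_sqrt hT.le
      calc β ^ 2 / T * R ≤ 1 * R := mul_le_mul_of_nonneg_right h2 hR0.le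
        _ = R := one_mul R
    · have h1 := him z hz0 h
      rw [← hy] at h1
      have h2 : R ≤ T := by rw [hRz]; exact hfar z hz0
      have h3 : β ^ 2 ≤ y ^ 2 := by
        rw [← sq_abs y]
        exact pow_le_pow_left₀ hβ.le h1 2
      refine le_trans ?_ h3
      rw [div_mul_eq_mul_div, div_le_iff₀ hT]
      exact mul_le_mul_of_nonneg_left h2 (sq_nonneg β)
  rw [← hR]
  have h4 : (β / √T * (r + R)) ^ 2 ≤ ‖(r : ℂ) - ρ‖ ^ 2 := by
    have h5 : β ^ 2 / T * R * (r + R) ^ 2 ≤ R * ‖(r : ℂ) - ρ‖ ^ 2 := (mul_le_mul_of_nonneg_right hy2 (sq_nonneg _)).trans hkey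
    have h6 : R * (β / √T * (r + R)) ^ 2 ≤ R * ‖(r : ℂ) - ρ‖ ^ 2 := by
      refine le_trans (le_of_eq ?_) h5
      rw [mul_pow, div_pow, Real.sq_sqrt hT.le]
      ring
    exact le_of_mul_le_mul_left h6 hR0
  exact (pow_le_pow_iff_left₀ (by positivity) (norm_nonneg _) two_ne_zero).1 h4

include hnn hpar h0 in
/-- **The small roots are real negative.** -/
theorem near_half {β : ℝ} (hβ : 0 < β) (him : ∀ z : ℂ, aeval z p = 0 → 0 < z.re → β ≤ |z.im|)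
    {ρ : ℂ} (hρ : ρ ∈ EVC.Z (half p)) (hs : ‖ρ‖ < β ^ 2) : ρ.re < 0 ∧ ρ.im = 0 := by
  obtain ⟨z, hz, hre, hz0, hzn⟩ := root_sq hnn hpar h0 hρ
  have h1 : z.re = 0 := by
    rcases eq_or_lt_of_le hre with h | h
    · exact h.symm
    · exfalso
      have h2 := him z hz0 h
      have h3 := h2.trans (Complex.abs_im_le_norm z)
      have h4 : β ^ 2 ≤ ‖z‖ ^ 2 := pow_le_pow_left₀ hβ.le h3 2
      rw [← norm_pow, hz] at h4
      linarith
  have hy : z.im ≠ 0 := fun h => hzn (Complex.ext h1 h)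
  rw [← hz, pow_two, Complex.mul_re, Complex.mul_im, h1]
  constructor
  · have := mul_self_pos.2 hy
    linarith
  · ring

include hnn hpar h0 in
theorem far_half {T : ℝ} (hfar : ∀ z : ℂ, aeval z p = 0 → ‖z‖ ^ 2 ≤ T) {ρ : ℂ} (hρ : ρ ∈ EVC.Z (half p)) : ‖ρ‖ ≤ T := by
  obtain ⟨z, hz, -, hz0, -⟩ := root_sq hnn hpar h0 hρ
  rw [← hz, norm_pow]
  exact hfar z hz0

end half

end Pool.Agent.Helper2.GD
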