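import Pool.Agent.Helper2.GD.Strip
import Pool.Agent.Helper2.GD.Fields
import Pool.Agent.Helper8.GD.Leg1

/-!
# The roots of the Conway polynomial of a positive diagram, from the second leg and the far bound
-/

set_option autoImplicit false

namespace Pool.Agent.Helper2.GD

open Polynomial Pool.Agent.Helper57.EV Pool.Agent.Helper57.EV2 Pool.Agent.Helper57.PD Pool.Agent.Helper85.Exp
  Pool.Agent.Helper60.EV2 Pool.Agent.Helper27.EV2 Pool.Agent.Helper2.PD Pool.Agent.Helper16.PD Pool.Agent.Helper8.GD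

/-- the second leg: no kernel vector for real `ζ = r` in `[0, 1)` and `κ` in a thin rectangle -/
def Leg2 (s : ℕ) (w₀ c₀ : ℝ) : Prop :=
  ∀ (P : Type) [Fintype P] (G : Sh P), Good s G → ∀ r : ℝ, 0 ≤ r → r < 1 → ∀ κ : ℂ, c₀ ≤ κ.re → κ.re ≤ 1 / 2 + w₀ →
    |κ.im| ≤ w₀ → ∀ (c : Face G → ℂ) (e₀ : P), c (Lf G e₀) = 0 → c (Rf G e₀) = 0 →
    (∀ p, G.lf p = true →
      c (Rf G p) - (r : ℂ) * c (Lf G (G.nxt.symm p)) - (1 - (r : ℂ)) * κ * (c (Lf G p) + c (Rf G (G.op p))) = 0) → ∀ f, c f = 0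

/-- the far bound -/
def FarB (s : ℕ) (T : ℝ) : Prop :=
  ∀ (P : Type) [Fintype P] (G : Sh P), Good s G → Nonempty P → ∀ nab : Dg G → ℤ[X], Cs nab → ∀ z : ℂ,
    aeval z (nab (allPos G)) = 0 → ‖z‖ ^ 2 ≤ T

variable {P : Type} [Fintype P] {G : Sh P} {s : ℕ}

theorem one_add_sq_ne {z : ℂ} (hz : ‖z‖ < 1) : 1 + z ^ 2 ≠ 0 := by
  intro h
  have h1 : z ^ 2 = -1 := by linear_combination h
  have h2 := congrArg norm h1
  rw [norm_pow, norm_neg, norm_one] at h2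
  have h3 : ‖z‖ ^ 2 < 1 := by nlinarith [norm_nonneg z]
  linarith

/-- **The strip without zeros.** -/
theorem strip {w₀ c₀ : ℝ} (hw : 0 < w₀) (hw1 : w₀ ≤ 1 / 10) (hwc : w₀ ≤ c₀) (hL : Leg2 s w₀ c₀) (h : Good s G)
    (b : P) {nab : Dg G → ℤ[X]} (hn : Cs nab) {z : ℂ} (hz0 : z ≠ 0) (hz : ‖z‖ < 1) (hre : 4 * c₀ ≤ z.re) (him : 10 * |z.im| ≤ w₀) :
    aeval (z⁻¹ - z) (nab (allPos G)) ≠ 0 := by
  classical
  obtain ⟨α, nab', e, hn', -, -, hform, hA⟩ := one_shadow h b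
  have : Nonempty P := ⟨b⟩
  have hu : nab = nab' := Cs.unique hn hn'
  rw [hu]
  refine nab_ne_of_Fdet h b hform hA hz0 (one_add_sq_ne hz) ?_
  refine no_zero_of_legs (Fdet_diff h b e) hw hw1 (by linarith) hwc (fun ζ hζ k hk => Fdet_leg1 h b e hζ hk.ne') ?_ hz hre him
  intro r hr0 hr1 k hk1 hk2 hk3
  exact Fdet_ne h b e r k fun c c1 c2 hr => hL P G h r hr0 hr1 k hk1 hk2 hk3 c _ c1 c2 hr

/-- the polynomial does not vanish -/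
theorem nab_ne_zero (h : Good s G) (b : P) {nab : Dg G → ℤ[X]} (hn : Cs nab) : nab (allPos G) ≠ 0 := by
  classical
  obtain ⟨α, nab', e, hn', -, -, hform, hA⟩ := one_shadow h b
  have : Nonempty P := ⟨b⟩
  have hu : nab = nab' := Cs.unique hn hn'
  rw [hu]
  intro h0
  have hz : ‖((1 / 2 : ℝ) : ℂ)‖ < 1 := by
    rw [Complex.norm_real]
    norm_num
  have hz0 : ((1 / 2 : ℝ) : ℂ) ≠ 0 := by
    rw [Ne, Complex.ofReal_eq_zero]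
    norm_num
  refine nab_ne_of_Fdet h b hform hA hz0 (one_add_sq_ne hz) ?_ (by rw [h0, map_zero])
  have e1 : ((1 / 2 : ℝ) : ℂ) / (1 + ((1 / 2 : ℝ) : ℂ) ^ 2) = ((2 / 5 : ℝ) : ℂ) := by
    push_cast
    norm_num
  rw [e1]
  refine Fdet_leg1 h b e ?_ (by norm_num)
  rw [norm_neg, norm_pow]
  nlinarith [norm_nonneg ((1 / 2 : ℝ) : ℂ)]

/-- **All facts on the roots.** -/
theorem roots {w₀ c₀ T : ℝ} (hw : 0 < w₀) (hw1 : w₀ ≤ 1 / 10) (hwc : w₀ ≤ c₀) (hT : 1 ≤ T) (hc : 4 * c₀ + w₀ / 10 ≤ 1 / (√T + 1))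
    (hL : Leg2 s w₀ c₀) (hF : FarB s T) (h : Good s G) (b : P) {nab : Dg G → ℤ[X]} (hn : Cs nab) :
    (∀ ρ ∈ EVC.Z (half (nab (allPos G))), ∀ r : ℝ, 0 < r → w₀ / 5 / √T * (r + ‖ρ‖) ≤ ‖(r : ℂ) - ρ‖) ∧
    (∀ ρ ∈ EVC.Z (half (nab (allPos G))), ‖ρ‖ < (w₀ / 5) ^ 2 → ρ.re < 0 ∧ ρ.im ^ 2 ≤ 3 * ρ.re ^ 2) ∧
    (∀ ρ ∈ EVC.Z (half (nab (allPos G))), ‖ρ‖ ≤ T) := by
  have hne : Nonempty P := ⟨b⟩
  have hnn := (Pool.Agent.Helper60.PD.nab_nn h.ho hn).1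
  have hpar := (Pool.Agent.Helper60.PD.nab_nn h.ho hn).2.2
  have h0 := nab_ne_zero h b hn
  have hfar := hF P G h hne nab hn
  have him : ∀ z : ℂ, aeval z (nab (allPos G)) = 0 → 0 < z.re → w₀ / 5 ≤ |z.im| := fun z hz hre =>
    im_ge hw hc (fun s hs0 hs1 h1 h2 => strip hw hw1 hwc hL h b hn hs0 hs1 h1 h2) hfar hz hre
  have hsT : 1 ≤ √T := Real.one_le_sqrt.2 hT
  refine ⟨fun ρ hρ r hr => ?_, fun ρ hρ hs => ?_, fun ρ hρ => far_half hnn hpar h0 hfar hρ⟩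
  · exact dist_half hnn hpar h0 (by positivity) (by linarith) (by linarith) him hfar hρ hr
  · obtain ⟨h1, h2⟩ := near_half hnn hpar h0 (by positivity) him hρ hs
    refine ⟨h1, ?_⟩
    rw [h2]
    nlinarith [sq_nonneg ρ.re]

end Pool.Agent.Helper2.GD
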