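import Mathlib

/-!
# Two legs: a function of two parameters without zeros (half disc, idea of helper12 and helper29)

`F ζ κ` has no zero for `|ζ| < 1` and real `κ > 0`, and none for real `ζ` in `[0, 1)` and `κ` in a thin rectangle around the real axis.
Then `F (-s²) (s / (1 + s²))` has no zero in a strip around the positive real axis.
-/

set_option autoImplicit false

namespace Pool.Agent.Helper2.GD

open Complex Set

/-- **Zeros do not enter through the boundary.** -/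
theorem homotopy_ne {U : Set ℂ} (hUb : Bornology.IsBounded U) {f : ℝ → ℂ → ℂ}
    (hc : ContinuousOn (fun q : ℝ × ℂ => f q.1 q.2) (Icc 0 1 ×ˢ closure U))
    (hd : ∀ b ∈ Icc (0 : ℝ) 1, DifferentiableOn ℂ (f b) (closure U))
    (hfr : ∀ b ∈ Icc (0 : ℝ) 1, ∀ x ∈ frontier U, f b x ≠ 0)
    (h0 : ∀ x ∈ closure U, f 0 x ≠ 0) : ∀ b ∈ Icc (0 : ℝ) 1, ∀ x ∈ closure U, f b x ≠ 0 := by
  have hK : IsCompact (closure U) := hUb.isCompact_closure
  have hKf : IsCompact (Icc (0 : ℝ) 1 ×ˢ frontier U) := isCompact_Icc.prod (hK.of_isClosed_subset isClosed_frontier frontier_subset_closure)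
  obtain ⟨m, hm0, hm⟩ := hKf.exists_forall_le' (f := fun q : ℝ × ℂ => ‖f q.1 q.2‖) (a := 0)
    ((hc.mono (prod_mono le_rfl frontier_subset_closure)).norm) (fun q hq => norm_pos_iff.2 (hfr q.1 hq.1 q.2 hq.2))
  -- without zeros the minimum is on the boundary
  have hmin : ∀ b ∈ Icc (0 : ℝ) 1, (∀ x ∈ closure U, f b x ≠ 0) → ∀ x ∈ closure U, m ≤ ‖f b x‖ := by
    intro b hb hne x hx
    have h1 : DifferentiableOn ℂ (fun x => (f b x)⁻¹) (closure U) := (hd b hb).inv hne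
    have h2 := Complex.norm_le_of_forall_mem_frontier_norm_le hUb h1.diffContOnCl (C := m⁻¹) (fun z hz => by
      rw [norm_inv]
      exact inv_anti₀ hm0 (hm (b, z) ⟨hb, hz⟩)) hx
    rw [norm_inv] at h2
    have h3 : 0 < ‖f b x‖ := norm_pos_iff.2 (hne x hx)
    exact (inv_le_inv₀ h3 hm0).1 h2
  obtain ⟨S, hS⟩ : ∃ S : Set ℝ, S = {b | ∀ x ∈ closure U, m ≤ ‖f b x‖} := ⟨_, rfl⟩
  have hclosed : IsClosed (S ∩ Icc 0 1) := by
    have e : S ∩ Icc 0 1 = Icc 0 1 ∩ ⋂ x ∈ closure U, (Icc (0 : ℝ) 1 ∩ (fun b => ‖f b x‖) ⁻¹' Ici m) := by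
      ext b
      rw [hS]
      simp only [mem_inter_iff, mem_setOf_eq, mem_iInter, mem_preimage, mem_Ici]
      constructor
      · rintro ⟨h1, h2⟩
        exact ⟨h2, fun x hx => ⟨h2, h1 x hx⟩⟩
      · rintro ⟨h1, h2⟩
        exact ⟨fun x hx => (h2 x hx).2, h1⟩
    rw [e]
    refine isClosed_Icc.inter (isClosed_biInter fun x hx => ?_)
    refine ContinuousOn.preimage_isClosed_of_isClosed ?_ isClosed_Icc isClosed_Ici
    refine ContinuousOn.norm ?_
    exact hc.comp (f := fun b : ℝ => (b, x)) (by fun_prop) fun b hb => ⟨hb, hx⟩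
  have h0S : (0 : ℝ) ∈ S := by
    rw [hS]
    exact hmin 0 ⟨le_rfl, zero_le_one⟩ h0
  have huc : UniformContinuousOn (fun q : ℝ × ℂ => f q.1 q.2) (Icc 0 1 ×ˢ closure U) :=
    (isCompact_Icc.prod hK).uniformContinuousOn_of_continuous hc
  have hgt : ∀ x ∈ S ∩ Ico 0 1, ∀ y ∈ Ioi x, (S ∩ Ioc x y).Nonempty := by
    rintro b₀ ⟨hb₀, hb₀0, hb₀1⟩ y hy
    obtain ⟨δ, hδ, hδ2⟩ := Metric.uniformContinuousOn_iff.1 huc m hm0
    obtain ⟨b, hb⟩ : ∃ b, b = min y (min 1 (b₀ + δ / 2)) := ⟨_, rfl⟩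
    have hbb : b₀ < b := by
      rw [hb]
      exact lt_min hy (lt_min hb₀1 (by linarith))
    have hby : b ≤ y := by rw [hb]; exact min_le_left _ _
    have hb1 : b ≤ 1 := by rw [hb]; exact (min_le_right _ _).trans (min_le_left _ _)
    have hbδ : b ≤ b₀ + δ / 2 := by rw [hb]; exact (min_le_right _ _).trans (min_le_right _ _)
    have hbI : b ∈ Icc (0 : ℝ) 1 := ⟨by linarith, hb1⟩
    refine ⟨b, ?_, hbb, hby⟩
    rw [hS]
    refine hmin b hbI fun x hx hzero => ?_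
    have h1 := hδ2 (b, x) ⟨hbI, hx⟩ (b₀, x) ⟨⟨hb₀0, hb₀1.le⟩, hx⟩ (by
      rw [Prod.dist_eq, dist_self, Real.dist_eq, abs_of_pos (by linarith : (0 : ℝ) < b - b₀)]
      exact max_lt (by linarith) hδ)
    rw [hS] at hb₀
    have h2 := hb₀ x hx
    rw [show f (b, x).1 (b, x).2 = 0 from hzero, dist_zero_left] at h1
    exact absurd h1 (not_lt.2 h2)
  have hall := hclosed.Icc_subset_of_forall_exists_gt h0S hgt
  intro b hb x hx hzero
  have h1 := hall hb
  rw [hS] at h1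
  have h2 := h1 x hx
  rw [hzero, norm_zero] at h2
  linarith

/-- the first parameter -/
noncomputable def zt (δ : ℝ) (x : ℂ) : ℂ := -((1 - δ : ℝ) : ℂ) * ((1 - x) / (1 + x)) ^ 2

/-- the second parameter -/
noncomputable def kp (a b : ℝ) (x : ℂ) : ℂ := a - b * x * I

theorem one_add_ne {x : ℂ} (hx : 0 ≤ x.re) : 1 + x ≠ 0 := by
  intro h
  have := congrArg Complex.re h
  rw [add_re, one_re, zero_re] at this
  linarith

/-- the arc: the first parameter is real -/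
theorem zt_arc {δ : ℝ} (hδ1 : δ ≤ 1) {x : ℂ} (hx : 0 ≤ x.re) (h1 : ‖x‖ = 1) : ∃ r : ℝ, 0 ≤ r ∧ r ≤ 1 - δ ∧ zt δ x = r := by
  have hn := one_add_ne hx
  obtain ⟨p, hp⟩ : ∃ p, p = x.re := ⟨_, rfl⟩
  obtain ⟨q, hq⟩ : ∃ q, q = x.im := ⟨_, rfl⟩
  have hpq : p ^ 2 + q ^ 2 = 1 := by
    have h2 : normSq x = 1 := by rw [normSq_eq_norm_sq, h1, one_pow]
    rw [normSq_apply] at h2
    rw [hp, hq]
    linarith
  have hx' : x = (p : ℂ) + q * I := by rw [hp, hq, re_add_im]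
  have hp0 : 0 ≤ p := by rw [hp]; exact hx
  have hp1 : (1 + p) ≠ 0 := by linarith
  have hpc : ((1 : ℂ) + p) ≠ 0 := by exact_mod_cast hp1
  have hI : I ^ 2 = -1 := I_sq
  have hpq' : (p : ℂ) ^ 2 + (q : ℂ) ^ 2 = 1 := by exact_mod_cast hpq
  have e1 : (1 - x) / (1 + x) = -(q / (1 + p) * I) := by
    rw [div_eq_iff hn, hx']
    field_simp
    linear_combination (-1 : ℂ) * hpq' + (q : ℂ) ^ 2 * hI
  refine ⟨(1 - δ) * (q / (1 + p)) ^ 2, mul_nonneg (by linarith) (sq_nonneg _), ?_, ?_⟩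
  · have h3 : (q / (1 + p)) ^ 2 ≤ 1 := by
      rw [div_pow, div_le_one (by positivity)]
      nlinarith
    calc (1 - δ) * (q / (1 + p)) ^ 2 ≤ (1 - δ) * 1 := mul_le_mul_of_nonneg_left h3 (by linarith)
      _ = 1 - δ := mul_one _
  · unfold zt
    rw [e1]
    push_cast
    linear_combination (-(1 - (δ : ℂ)) * ((q : ℂ) / (1 + p)) ^ 2) * hI

/-- in the closed half disc the first parameter is small -/
theorem norm_zt {δ : ℝ} (hδ1 : δ ≤ 1) {x : ℂ} (hx : 0 ≤ x.re) : ‖zt δ x‖ ≤ 1 - δ := by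
  have e1 : ‖1 - x‖ ≤ ‖1 + x‖ := by
    rw [← sq_le_sq₀ (norm_nonneg _) (norm_nonneg _), ← normSq_eq_norm_sq, ← normSq_eq_norm_sq, normSq_apply, normSq_apply]
    simp only [sub_re, sub_im, add_re, add_im, one_re, one_im]
    nlinarith
  have hn : 0 < ‖1 + x‖ := norm_pos_iff.2 (one_add_ne hx)
  unfold zt
  rw [norm_mul, norm_neg, Complex.norm_real, Real.norm_of_nonneg (by linarith), norm_pow, norm_div]
  have h1 : ‖1 - x‖ / ‖1 + x‖ ≤ 1 := (div_le_one hn).2 e1
  have h2 : (‖1 - x‖ / ‖1 + x‖) ^ 2 ≤ 1 := pow_le_one₀ (by positivity) h1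
  calc (1 - δ) * (‖1 - x‖ / ‖1 + x‖) ^ 2 ≤ (1 - δ) * 1 := mul_le_mul_of_nonneg_left h2 (by linarith)
    _ = 1 - δ := mul_one _

/-- the half disc -/
def HD : Set ℂ := {z : ℂ | 0 < z.re} ∩ Metric.ball 0 1

theorem closure_HD : closure HD ⊆ {z : ℂ | 0 ≤ z.re ∧ ‖z‖ ≤ 1} := by
  refine closure_minimal ?_ ((isClosed_le continuous_const continuous_re).inter (isClosed_le continuous_norm continuous_const))
  rintro z ⟨h1, h2⟩
  have h3 : 0 < z.re := h1
  have h4 := Metric.mem_ball.1 h2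
  rw [dist_zero_right] at h4
  exact ⟨h3.le, h4.le⟩

theorem frontier_HD {z : ℂ} (hz : z ∈ frontier HD) : 0 ≤ z.re ∧ ‖z‖ ≤ 1 ∧ (z.re = 0 ∨ ‖z‖ = 1) := by
  have hcl := closure_HD (frontier_subset_closure hz)
  refine ⟨hcl.1, hcl.2, ?_⟩
  by_contra hcon
  push Not at hcon
  have h1 : 0 < z.re := lt_of_le_of_ne hcl.1 (Ne.symm hcon.1)
  have h2 : ‖z‖ < 1 := lt_of_le_of_ne hcl.2 hcon.2
  have ho : IsOpen HD := (isOpen_lt continuous_const continuous_re).inter Metric.isOpen_ball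
  have h3 : z ∈ interior HD := by
    rw [ho.interior_eq]
    refine ⟨h1, ?_⟩
    rw [Metric.mem_ball, dist_zero_right]
    exact h2
  exact hz.2 h3

theorem bounded_HD : Bornology.IsBounded HD := Metric.isBounded_ball.subset inter_subset_right

/-- **The half disc.** -/
theorem half_disc {F : ℂ → ℂ → ℂ} (hF : Differentiable ℂ (fun q : ℂ × ℂ => F q.1 q.2)) {δ a b c₀ c₁ c₂ : ℝ} (hδ : 0 < δ) (hδ1 : δ ≤ 1)
    (leg1 : ∀ ζ : ℂ, ‖ζ‖ < 1 → ∀ k : ℝ, 0 < k → F ζ k ≠ 0)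
    (leg2 : ∀ r : ℝ, 0 ≤ r → r < 1 → ∀ k : ℂ, c₀ ≤ k.re → k.re ≤ c₁ → |k.im| ≤ c₂ → F r k ≠ 0)
    (h0 : 0 < c₀) (h1 : c₀ ≤ a - |b|) (h2 : a + |b| ≤ c₁) (h3 : |b| ≤ c₂) {x : ℂ} (hx0 : 0 ≤ x.re) (hx1 : ‖x‖ ≤ 1) (hx : x ∈ closure HD) :
    F (zt δ x) (kp a b x) ≠ 0 := by
  have key := homotopy_ne bounded_HD (f := fun τ x => F (zt δ x) (kp a (τ * b) x)) ?_ ?_ ?_ ?_ 1 ⟨zero_le_one, le_rfl⟩ x hx
  · simp only [one_mul] at key
    exact key
  · -- continuity
    have e : (fun q : ℝ × ℂ => F (zt δ q.2) (kp a (q.1 * b) q.2)) =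
        (fun q : ℂ × ℂ => F q.1 q.2) ∘ (fun q : ℝ × ℂ => (zt δ q.2, kp a (q.1 * b) q.2)) := rfl
    show ContinuousOn (fun q : ℝ × ℂ => F (zt δ q.2) (kp a (q.1 * b) q.2)) _
    rw [e]
    refine hF.continuous.comp_continuousOn (ContinuousOn.prodMk ?_ ?_)
    · unfold zt
      refine continuousOn_const.mul (ContinuousOn.pow (ContinuousOn.div (by fun_prop) (by fun_prop) ?_) 2)
      intro q hq
      exact one_add_ne (closure_HD hq.2).1
    · unfold kp
      fun_prop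
  · -- holomorphy
    intro τ _
    have hz : DifferentiableOn ℂ (zt δ) (closure HD) := by
      unfold zt
      refine (differentiableOn_const _).mul (DifferentiableOn.pow (DifferentiableOn.div ((differentiableOn_const _).sub differentiableOn_id)
        ((differentiableOn_const _).add differentiableOn_id) fun z hz => ?_) _)
      exact one_add_ne (closure_HD hz).1
    have hk2 : DifferentiableOn ℂ (kp a (τ * b)) (closure HD) := by
      unfold kp
      exact (differentiableOn_const _).sub (((differentiableOn_const _).mul differentiableOn_id).mul (differentiableOn_const _))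
    exact hF.comp_differentiableOn (hz.prodMk hk2)
  · -- the boundary
    rintro τ ⟨hτ0, hτ1⟩ z hz
    obtain ⟨hre, hno, hor⟩ := frontier_HD hz
    have hτb : |τ * b| ≤ |b| := by
      rw [abs_mul, abs_of_nonneg hτ0]
      exact mul_le_of_le_one_left (abs_nonneg b) hτ1
    have hreim : |z.re| ≤ 1 ∧ |z.im| ≤ 1 := ⟨(abs_re_le_norm z).trans hno, (abs_im_le_norm z).trans hno⟩
    have ekre : (kp a (τ * b) z).re = a + τ * b * z.im := by
      unfold kp
      simp
    have ekim : (kp a (τ * b) z).im = -(τ * b * z.re) := by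
      unfold kp
      simp
    have h4 : |τ * b * z.im| ≤ |b| := by
      rw [abs_mul]
      calc |τ * b| * |z.im| ≤ |b| * 1 := mul_le_mul hτb hreim.2 (abs_nonneg _) (abs_nonneg _)
        _ = |b| := mul_one _
    have h5 : |τ * b * z.re| ≤ |b| := by
      rw [abs_mul]
      calc |τ * b| * |z.re| ≤ |b| * 1 := mul_le_mul hτb hreim.1 (abs_nonneg _) (abs_nonneg _)
        _ = |b| := mul_one _
    have h6 := abs_le.1 h4
    rcases hor with h | h
    · -- the diameter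
      have e1 : kp a (τ * b) z = ((a + τ * b * z.im : ℝ) : ℂ) := by
        apply Complex.ext
        · rw [ekre, ofReal_re]
        · rw [ekim, h, mul_zero, neg_zero, ofReal_im]
      rw [e1]
      refine leg1 _ ((norm_zt hδ1 hre).trans_lt (by linarith)) _ ?_
      linarith
    · -- the arc
      obtain ⟨r, hr0, hr1, hr⟩ := zt_arc hδ1 hre h
      rw [hr]
      refine leg2 r hr0 (by linarith) _ ?_ ?_ ?_
      · rw [ekre]; linarith
      · rw [ekre]; linarith
      · rw [ekim, abs_neg]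
        exact h5.trans h3
  · -- the start
    intro z hz
    have e1 : kp a (0 * b) z = ((a : ℝ) : ℂ) := by
      unfold kp
      simp
    show F (zt δ z) (kp a (0 * b) z) ≠ 0
    rw [e1]
    refine leg1 _ ((norm_zt hδ1 (closure_HD hz).1).trans_lt (by linarith)) _ ?_
    have := abs_nonneg b
    linarith

end Pool.Agent.Helper2.GD
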