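import Pool.Agent.Helper2.GD.Leg2Run
import Pool.Agent.Helper2.GD.Glue
import Pool.Agent.Helper30.GD.RunG

/-!
# The second leg with a width linear in `c₀`
-/

set_option autoImplicit false

namespace Pool.Agent.Helper2.GD

open Pool.Agent.Helper57.EV Pool.Agent.Helper57.EV2 Pool.Agent.Helper57.PD Pool.Agent.Helper85.Exp
  Pool.Agent.Helper60.EV2 Pool.Agent.Helper27.EV2 Pool.Agent.Helper2.PD Pool.Agent.Helper16.PD Pool.Agent.Helper8.GD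
  Pool.Agent.Helper49.GD

/-- **The second leg.** -/
theorem leg2_lin {s : ℕ} {c₀ w₀ : ℝ} (hc0 : 0 < c₀) (hc1 : c₀ ≤ 1 / 2) (hw : 0 ≤ w₀)
    (h : 50 * ((s : ℝ) + 2) ^ 2 * (s * s * s) * w₀ ≤ c₀) : Leg2 s w₀ c₀ := by
  intro P _ G hG r hr0 hr1 κ hκ1 hκ2 hκ3 c e₀ c1 c2 hrow
  have hκ : κ ≠ 0 := by
    rintro rfl
    rw [Complex.zero_re] at hκ1
    linarith
  refine Pool.Agent.Helper30.GD.zero_of_run hG hκ ?_ c hrow c1 c2
  intro ι _ _ m lv l r' vl vr σ hcard _ hlv R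
  have hs0 : (0 : ℝ) ≤ s := Nat.cast_nonneg s
  have hcard' : (Fintype.card ι : ℝ) ≤ s * s * s := by exact_mod_cast hcard
  refine leg2_run hr0 hr1 hc0 hc1 hw ?_ ?_ hκ1 hκ2 hκ3 hlv R
  · rcases Nat.eq_zero_or_pos s with h0 | h0
    · rw [h0]
      norm_num
    · have s1 : (1 : ℝ) ≤ s := by exact_mod_cast h0
      have h2 : (s : ℝ) ^ 2 ≤ ((s : ℝ) + 2) ^ 2 * (s * s * s) := by
        have h3 : (s : ℝ) ^ 2 ≤ ((s : ℝ) + 2) ^ 2 := by nlinarith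
        have h4 : (1 : ℝ) ≤ (s * s * s : ℝ) := by
          have : (1 : ℝ) ≤ (s : ℝ) ^ 3 := one_le_pow₀ s1
          calc (1 : ℝ) ≤ (s : ℝ) ^ 3 := this
            _ = s * s * s := by ring
        calc (s : ℝ) ^ 2 = (s : ℝ) ^ 2 * 1 := (mul_one _).symm
          _ ≤ ((s : ℝ) + 2) ^ 2 * (s * s * s) := mul_le_mul h3 h4 (by norm_num) (by positivity)
      have h3 : (s : ℝ) ^ 2 * w₀ ≤ ((s : ℝ) + 2) ^ 2 * (s * s * s) * w₀ := mul_le_mul_of_nonneg_right h2 hw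
      have h4 : 50 * ((s : ℝ) + 2) ^ 2 * (s * s * s) * w₀ = 50 * (((s : ℝ) + 2) ^ 2 * (s * s * s) * w₀) := by ring
      rw [h4] at h
      linarith
  · have h2 : (Fintype.card ι : ℝ) * (s * (s + 1)) ≤ (s * s * s) * ((s : ℝ) + 2) ^ 2 := by
      refine mul_le_mul hcard' (by nlinarith) (by positivity) (by positivity)
    have h3 : (Fintype.card ι : ℝ) * (s * (s + 1)) * w₀ ≤ (s * s * s) * ((s : ℝ) + 2) ^ 2 * w₀ := mul_le_mul_of_nonneg_right h2 hw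
    have h4 : 50 * ((s : ℝ) + 2) ^ 2 * (s * s * s) * w₀ = 50 * ((s * s * s) * ((s : ℝ) + 2) ^ 2 * w₀) := by ring
    rw [h4] at h
    have h5 : 24 * (Fintype.card ι : ℝ) * (s * (s + 1)) * w₀ = 24 * ((Fintype.card ι : ℝ) * (s * (s + 1)) * w₀) := by ring
    rw [h5]
    linarith

end Pool.Agent.Helper2.GD
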