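import Pool.Agent.Helper49.GD.Run
import Pool.Agent.Helper2.GD.Eta

/-!
# The defects of a closed run vanish for real `ζ = q` in `[0, 1)` and `κ` near the segment `[c₀, 1/2]`

The mean difference of the Wronskians with the functions `hh κ c`, against the weights of the real
functions `hh k c`, `k = min (Re κ) (1/2)`, summed over all centres `c`.
-/

set_option autoImplicit false

namespace Pool.Agent.Helper2.GD

open Finset Pool.Agent.Helper43.GD Pool.Agent.Helper49.GD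

/-- the weights of the labels -/
noncomputable def pw {ι : Type} (k : ℝ) (lv : ι → ℤ) (c : ℤ) (i : ι) : ℝ :=
  (hh k c (lv i + 1))⁻¹ * (hh k c (lv i))⁻¹

theorem pw_nonneg {ι : Type} {k : ℝ} (h0 : 0 < k) (h1 : k ≤ 1 / 2) (lv : ι → ℤ) (c : ℤ) (i : ι) : 0 ≤ pw k lv c i :=
  mul_nonneg (inv_nonneg.2 (hh_pos h0 h1 _ _).le) (inv_nonneg.2 (hh_pos h0 h1 _ _).le)

theorem pw_le {ι : Type} {k : ℝ} (h0 : 0 < k) (h1 : k ≤ 1 / 2) (lv : ι → ℤ) (c : ℤ) (i : ι) : pw k lv c i ≤ k / 2 := by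
  unfold pw
  have h2 := hh_mul h0 h1 c (lv i)
  have h3 : 0 < 2 * k⁻¹ := by positivity
  rw [← mul_inv]
  calc (hh k c (lv i + 1) * hh k c (lv i))⁻¹ ≤ (2 * k⁻¹)⁻¹ := inv_anti₀ h3 h2
    _ = k / 2 := by
      rw [mul_inv, inv_inv]
      ring

/-- the deviation of the two coefficients -/
theorem coef_dev {κ : ℂ} {k w : ℝ} (h0 : 0 < k) (h1 : k ≤ 1 / 2) (hκ : κ ≠ 0) (hw : 0 ≤ w)
    (hd : ‖κ ^ 2 - (k : ℂ) ^ 2‖ ≤ 11 / 5 * w) {n : ℕ} (hn : 100 * (n : ℝ) ^ 2 * w ≤ 1) {c i : ℤ} (hi : (i - c).natAbs ≤ n) :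
    ‖κ * hh κ c (i + 1) / hh κ c i - ((k * hh k c (i + 1) / hh k c i : ℝ) : ℂ)‖ ≤ 12 * n * w ∧
    ‖κ * hh κ c (i - 1) / hh κ c i - ((k * hh k c (i - 1) / hh k c i : ℝ) : ℂ)‖ ≤ 12 * n * w := by
  have hne : hh κ c i ≠ 0 := eta_ne h0 h1 hκ hw hd hn _ (by omega)
  have hne' := (hh_pos h0 h1 c i).ne'
  have s1 := hh_sum hκ hne
  have s2 := hh_sum h0.ne' hne'
  have hρ : ∀ j < (i - c).natAbs, rho κ j ≠ 0 := fun j hj h => by
    have := (rho_dev h0 h1 hw hd hn j (by omega)).2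
    rw [h, norm_zero] at this
    linarith
  have hdev : ‖rho κ (i - c).natAbs - (rho k (i - c).natAbs : ℝ)‖ ≤ 12 * n * w := by
    refine ((rho_dev h0 h1 hw hd hn _ hi).1).trans ?_
    have : (((i - c).natAbs : ℕ) : ℝ) ≤ n := by exact_mod_cast hi
    gcongr
  have r1 : κ * eta κ ((i - c).natAbs + 1) / eta κ (i - c).natAbs = rho κ (i - c).natAbs := by
    rw [eta_rho hκ _ hρ]
    exact mul_div_cancel_right₀ _ hne
  have r2 : k * eta k ((i - c).natAbs + 1) / eta k (i - c).natAbs = rho k (i - c).natAbs := by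
    rw [eta_step h0 h1]
    exact mul_div_cancel_right₀ _ hne'
  have two : ∀ {x y : ℂ} {a b : ℝ}, x + y = 1 → a + b = 1 → ‖x - a‖ ≤ 12 * n * w → ‖y - b‖ ≤ 12 * n * w := by
    intro x y a b e1 e2 e3
    have e4 : y - b = -(x - a) := by
      have e5 : (b : ℂ) = 1 - a := by
        rw [show b = 1 - a by linarith]
        push_cast
        ring
      rw [e5]
      linear_combination e1
    rw [e4, norm_neg]
    exact e3
  by_cases h : c ≤ i
  · have e1 : hh κ c (i + 1) = eta κ ((i - c).natAbs + 1) := by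
      unfold hh
      congr 1
      omega
    have e2 : hh k c (i + 1) = eta k ((i - c).natAbs + 1) := by
      unfold hh
      congr 1
      omega
    have f : ‖κ * hh κ c (i + 1) / hh κ c i - ((k * hh k c (i + 1) / hh k c i : ℝ) : ℂ)‖ ≤ 12 * n * w := by
      rw [e1, e2]
      unfold hh
      rw [r1, r2]
      exact hdev
    exact ⟨f, two s1 s2 f⟩
  · have e1 : hh κ c (i - 1) = eta κ ((i - c).natAbs + 1) := by
      unfold hh
      congr 1
      omega
    have e2 : hh k c (i - 1) = eta k ((i - c).natAbs + 1) := by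
      unfold hh
      congr 1
      omega
    have f : ‖κ * hh κ c (i - 1) / hh κ c i - ((k * hh k c (i - 1) / hh k c i : ℝ) : ℂ)‖ ≤ 12 * n * w := by
      rw [e1, e2]
      unfold hh
      rw [r1, r2]
      exact hdev
    rw [add_comm] at s1 s2
    exact ⟨two s1 s2 f, f⟩

/-- **The defects vanish.** -/
theorem leg2_run {ι : Type} [Fintype ι] {q : ℝ} (hq0 : 0 ≤ q) (hq1 : q < 1) {κ : ℂ} {s : ℕ} {c₀ w : ℝ} (hc0 : 0 < c₀)
    (hc1 : c₀ ≤ 1 / 2) (hw : 0 ≤ w) (h1 : 100 * (s : ℝ) ^ 2 * w ≤ 1)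
    (h2 : 24 * (Fintype.card ι : ℝ) * (s * (s + 1)) * w < c₀)
    (hκ1 : c₀ ≤ κ.re) (hκ2 : κ.re ≤ 1 / 2 + w) (hκ3 : |κ.im| ≤ w)
    {m : ℕ} {lv : ι → ℤ} {l r : ℕ → ι} {vl vr : ℕ → ι → ℂ} {σ : Equiv.Perm ι}
    (hlv : ∀ i, 0 ≤ lv i ∧ lv i + 1 ≤ s) (R : Run ι (q : ℂ) κ m lv l r vl vr (fun _ => 0) σ) :
    ∀ t < m, vl t (l t) + vr t (r t) - vr t (l t) / κ = 0 := by
  intro t0 ht0
  have s1 : (1 : ℝ) ≤ s := by
    have h := hlv (l t0)
    have h' : 1 ≤ s := by omega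
    exact_mod_cast h'
  have hw1 : w ≤ 1 / 100 := by
    have h3 : (1 : ℝ) ≤ (s : ℝ) ^ 2 := one_le_pow₀ s1
    have h4 : 1 * w ≤ (s : ℝ) ^ 2 * w := mul_le_mul_of_nonneg_right h3 hw
    linarith
  -- the real parameter
  obtain ⟨k, hk⟩ : ∃ k, k = min κ.re (1 / 2) := ⟨_, rfl⟩
  have k0 : 0 < k := by
    rw [hk]
    exact lt_min (hc0.trans_le hκ1) (by norm_num)
  have k1 : k ≤ 1 / 2 := by
    rw [hk]
    exact min_le_right _ _
  have kc : c₀ ≤ k := by
    rw [hk]
    exact le_min hκ1 hc1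
  have kre : k ≤ κ.re := by
    rw [hk]
    exact min_le_left _ _
  have kn : k ≤ ‖κ‖ := kre.trans (Complex.re_le_norm κ)
  have hκ : κ ≠ 0 := by
    intro h
    rw [h, norm_zero] at kn
    linarith
  have kd : κ.re - k ≤ w := by
    rw [hk]
    rcases le_total κ.re (1 / 2) with h | h
    · rw [min_eq_left h]
      linarith
    · rw [min_eq_right h]
      linarith
  have d1 : ‖κ - (k : ℂ)‖ ≤ 2 * w := by
    refine (Complex.norm_le_abs_re_add_abs_im _).trans ?_
    rw [Complex.sub_re, Complex.sub_im, Complex.ofReal_re, Complex.ofReal_im, sub_zero, abs_of_nonneg (by linarith)]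
    linarith
  have d2 : ‖κ + (k : ℂ)‖ ≤ 1 + 2 * w := by
    have e : κ + (k : ℂ) = (κ - k) + ((2 * k : ℝ) : ℂ) := by
      push_cast
      ring
    rw [e]
    refine (norm_add_le _ _).trans ?_
    rw [Complex.norm_real, Real.norm_of_nonneg (by linarith)]
    linarith
  have hd : ‖κ ^ 2 - (k : ℂ) ^ 2‖ ≤ 11 / 5 * w := by
    have e : κ ^ 2 - (k : ℂ) ^ 2 = (κ - k) * (κ + k) := by ring
    rw [e, norm_mul]
    calc ‖κ - (k : ℂ)‖ * ‖κ + (k : ℂ)‖ ≤ (2 * w) * (1 + 2 * w) := mul_le_mul d1 d2 (norm_nonneg _) (by positivity)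
      _ ≤ 11 / 5 * w := by nlinarith
  have hlr : ∀ t < m, lv (r t) = lv (l t) - 1 := fun t ht => by linarith [R.lev t ht]
  have hlt : ∀ t < m, 1 ≤ lv (l t) ∧ lv (l t) + 1 ≤ s := fun t ht => by
    have a1 := hlv (l t)
    have a2 := hlv (r t)
    have a3 := hlr t ht
    omega
  have hna : ∀ t < m, ∀ c : ℕ, c ∈ range (s + 1) → (lv (l t) - (c : ℤ)).natAbs ≤ s := fun t ht c hc => by
    have a1 := hlt t ht
    rw [mem_range] at hc
    omega
  set d : ℕ → ℂ := fun t => vl t (l t) + vr t (r t) - vr t (l t) / κ with hdd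
  have hq : 0 < 1 - q := by linarith
  have hqn : ‖(1 - q : ℂ)‖ = 1 - q := by
    rw [show (1 - q : ℂ) = ((1 - q : ℝ) : ℂ) by push_cast; rfl, Complex.norm_real, Real.norm_of_nonneg hq.le]
  -- one centre
  have one : ∀ c : ℕ, c ∈ range (s + 1) → ∑ t ∈ range m, pw k lv c (l t) * pw k lv c (r t) *
      (‖hh κ c (lv (l t))‖ * ‖d t‖) ≤ (Fintype.card ι * (k / 2)) * ∑ t ∈ range m, (12 * s * w * 2 * ‖d t‖) := by
    intro c hc
    set G := GG (hh κ (c : ℤ)) lv vl vr with hG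
    set a : ℕ → ℝ := fun t => (1 - q) * (k * hh k (c : ℤ) (lv (l t) + 1) / hh k (c : ℤ) (lv (l t))) with ha
    set b : ℕ → ℝ := fun t => (1 - q) * (k * hh k (c : ℤ) (lv (l t) - 1) / hh k (c : ℤ) (lv (l t))) with hb
    have hab : ∀ t, a t + b t = 1 - q := by
      intro t
      rw [ha, hb]
      simp only
      rw [← mul_add, hh_sum k0.ne' (hh_pos k0 k1 _ _).ne', mul_one]
    have a0 : ∀ t, 0 ≤ a t := fun t =>
      mul_nonneg hq.le (div_nonneg (mul_nonneg k0.le (hh_pos k0 k1 _ _).le) (hh_pos k0 k1 _ _).le)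
    have b0 : ∀ t, 0 ≤ b t := fun t =>
      mul_nonneg hq.le (div_nonneg (mul_nonneg k0.le (hh_pos k0 k1 _ _).le) (hh_pos k0 k1 _ _).le)
    have step : ∀ t < m, IsStep (pw k lv c) (l t) (r t) (a t) (b t)
        (((1 - q) * κ * hh κ c (lv (l t) + 1) / hh κ c (lv (l t)) - a t) * (G t (r t) - G t (l t)))
        (((1 - q) * κ * hh κ c (lv (l t) - 1) / hh κ c (lv (l t)) - b t) * (G t (l t) - G t (r t)))
        (G t) (G (t + 1)) := by
      intro t ht
      have hne : hh κ c (lv (l t)) ≠ 0 := eta_ne k0 k1 hκ hw hd h1 _ (by have := hna t ht c hc; omega)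
      refine ⟨R.ne t ht, a0 t, by linarith [hab t, b0 t], b0 t, by linarith [hab t, a0 t], ?_, ?_, ?_,
        fun j h3 h4 => R.out _ ht h3 h4⟩
      · unfold pw
        rw [hlr t ht, ha, hb]
        simp only
        have e1 := (hh_pos k0 k1 (c : ℤ) (lv (l t))).ne'
        have e2 := (hh_pos k0 k1 (c : ℤ) (lv (l t) + 1)).ne'
        have e3 := (hh_pos k0 k1 (c : ℤ) (lv (l t) - 1)).ne'
        rw [show lv (l t) - 1 + 1 = lv (l t) by ring]
        field_simp
      · rw [hG, R.left hκ (hh_rec κ c) ht hne]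
        ring
      · rw [hG, R.right hκ (hh_rec κ c) ht hne]
        ring
    have hσ : ∀ i, pw k lv c (σ i) = pw k lv c i := fun i => by
      unfold pw
      rw [R.perm]
    have hg := gini (pw_nonneg k0 k1 lv c) step σ hσ (fun i => R.close _ i)
    have hdiff : ∀ t < m, ‖G t (r t) - G t (l t)‖ = ‖hh κ c (lv (l t))‖ * ‖d t‖ := by
      intro t ht
      rw [hG, R.diff (hh_rec κ c) ht, norm_mul]
    have e1 : ∑ t ∈ range m, (1 - |1 - a t - b t|) * (pw k lv c (l t) * pw k lv c (r t) * ‖G t (l t) - G t (r t)‖) =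
        (1 - q) * ∑ t ∈ range m, pw k lv c (l t) * pw k lv c (r t) * (‖hh κ c (lv (l t))‖ * ‖d t‖) := by
      rw [mul_sum]
      refine sum_congr rfl fun t ht => ?_
      rw [norm_sub_rev (G t (l t)), hdiff t (mem_range.1 ht),
        show 1 - a t - b t = q by linarith [hab t], abs_of_nonneg hq0]
    rw [e1] at hg
    have hp : ∑ i, pw k lv c i ≤ Fintype.card ι * (k / 2) := by
      refine (sum_le_sum fun i _ => pw_le k0 k1 lv c i).trans ?_
      rw [sum_const, card_univ, nsmul_eq_mul]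
    have hr : (∑ i, pw k lv c i) * ∑ t ∈ range m, (pw k lv c (l t) *
        ‖((1 - q) * κ * hh κ c (lv (l t) + 1) / hh κ c (lv (l t)) - a t) * (G t (r t) - G t (l t))‖ + pw k lv c (r t) *
        ‖((1 - q) * κ * hh κ c (lv (l t) - 1) / hh κ c (lv (l t)) - b t) * (G t (l t) - G t (r t))‖) ≤
        (1 - q) * ((Fintype.card ι * (k / 2)) * ∑ t ∈ range m, (12 * s * w * 2 * ‖d t‖)) := by
      rw [mul_left_comm, mul_sum (a := 1 - q)]
      refine mul_le_mul hp ?_ (sum_nonneg fun t _ => add_nonneg (mul_nonneg (pw_nonneg k0 k1 _ _ _)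
        (norm_nonneg _)) (mul_nonneg (pw_nonneg k0 k1 _ _ _) (norm_nonneg _))) (by positivity)
      refine sum_le_sum fun t ht => ?_
      have ht' := mem_range.1 ht
      have hN := hna t ht' c hc
      obtain ⟨f1, f2⟩ := coef_dev k0 k1 hκ hw hd h1 hN
      rw [norm_mul, norm_mul, norm_sub_rev (G t (l t)), hdiff t ht']
      have g1 : ‖(1 - q) * κ * hh κ c (lv (l t) + 1) / hh κ c (lv (l t)) - (a t : ℂ)‖ ≤ (1 - q) * (12 * s * w) := by
        have e : (1 - q) * κ * hh κ c (lv (l t) + 1) / hh κ c (lv (l t)) - (a t : ℂ) =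
            (1 - q) * (κ * hh κ c (lv (l t) + 1) / hh κ c (lv (l t)) - ((k * hh k c (lv (l t) + 1) / hh k c (lv (l t)) : ℝ) : ℂ)) := by
          rw [ha]
          push_cast
          ring
        rw [e, norm_mul, hqn]
        exact mul_le_mul_of_nonneg_left f1 hq.le
      have g2 : ‖(1 - q) * κ * hh κ c (lv (l t) - 1) / hh κ c (lv (l t)) - (b t : ℂ)‖ ≤ (1 - q) * (12 * s * w) := by
        have e : (1 - q) * κ * hh κ c (lv (l t) - 1) / hh κ c (lv (l t)) - (b t : ℂ) =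
            (1 - q) * (κ * hh κ c (lv (l t) - 1) / hh κ c (lv (l t)) - ((k * hh k c (lv (l t) - 1) / hh k c (lv (l t)) : ℝ) : ℂ)) := by
          rw [hb]
          push_cast
          ring
        rw [e, norm_mul, hqn]
        exact mul_le_mul_of_nonneg_left f2 hq.le
      -- the modulus of `h` against the weights
      have hm : ‖hh κ c (lv (l t))‖ ≤ 2 * hh k c (lv (l t)) := by
        have h3 := norm_eta_le k0 k1 kn hw hd h1 _ hN
        refine h3.trans (mul_le_mul_of_nonneg_right ?_ (hh_pos k0 k1 _ _).le)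
        have h4 : (((lv (l t) - (c : ℤ)).natAbs : ℕ) : ℝ) ≤ s := by exact_mod_cast hN
        have h5 : (((lv (l t) - (c : ℤ)).natAbs : ℕ) : ℝ) ^ 2 ≤ (s : ℝ) ^ 2 := by gcongr
        have h6 : (((lv (l t) - (c : ℤ)).natAbs : ℕ) : ℝ) ^ 2 * w ≤ (s : ℝ) ^ 2 * w := mul_le_mul_of_nonneg_right h5 hw
        linarith
      have hH : 0 < hh k c (lv (l t)) := hh_pos k0 k1 _ _
      have p1 : pw k lv c (l t) * ‖hh κ c (lv (l t))‖ ≤ 1 := by
        refine (mul_le_mul_of_nonneg_left hm (pw_nonneg k0 k1 _ _ _)).trans ?_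
        unfold pw
        have e : (hh k c (lv (l t) + 1))⁻¹ * (hh k c (lv (l t)))⁻¹ * (2 * hh k c (lv (l t))) = 2 * (hh k c (lv (l t) + 1))⁻¹ := by
          field_simp
        rw [e]
        have h3 := two_le_hh k0 k1 c (lv (l t) + 1)
        rw [← div_eq_mul_inv, div_le_one (by linarith)]
        exact h3
      have p2 : pw k lv c (r t) * ‖hh κ c (lv (l t))‖ ≤ 1 := by
        refine (mul_le_mul_of_nonneg_left hm (pw_nonneg k0 k1 _ _ _)).trans ?_
        unfold pw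
        rw [hlr t ht', show lv (l t) - 1 + 1 = lv (l t) by ring]
        have hH' : 0 < hh k c (lv (l t) - 1) := hh_pos k0 k1 _ _
        have e : (hh k c (lv (l t)))⁻¹ * (hh k c (lv (l t) - 1))⁻¹ * (2 * hh k c (lv (l t))) = 2 * (hh k c (lv (l t) - 1))⁻¹ := by
          field_simp
        rw [e]
        have h3 := two_le_hh k0 k1 c (lv (l t) - 1)
        rw [← div_eq_mul_inv, div_le_one (by linarith)]
        exact h3
      have dn := norm_nonneg (d t)
      have w1 := pw_nonneg k0 k1 lv c (l t)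
      have w2 := pw_nonneg k0 k1 lv c (r t)
      have hn := norm_nonneg (hh κ c (lv (l t)))
      have sw : 0 ≤ (1 - q) * (12 * s * w) := by positivity
      have c1 : pw k lv c (l t) * (‖(1 - q) * κ * hh κ c (lv (l t) + 1) / hh κ c (lv (l t)) - (a t : ℂ)‖ *
          (‖hh κ c (lv (l t))‖ * ‖d t‖)) ≤ (1 - q) * (12 * s * w) * 1 * ‖d t‖ := by
        calc _ = ‖(1 - q) * κ * hh κ c (lv (l t) + 1) / hh κ c (lv (l t)) - (a t : ℂ)‖ *
              (pw k lv c (l t) * ‖hh κ c (lv (l t))‖) * ‖d t‖ := by ring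
          _ ≤ (1 - q) * (12 * s * w) * 1 * ‖d t‖ :=
            mul_le_mul_of_nonneg_right (mul_le_mul g1 p1 (mul_nonneg w1 hn) sw) dn
      have c2 : pw k lv c (r t) * (‖(1 - q) * κ * hh κ c (lv (l t) - 1) / hh κ c (lv (l t)) - (b t : ℂ)‖ *
          (‖hh κ c (lv (l t))‖ * ‖d t‖)) ≤ (1 - q) * (12 * s * w) * 1 * ‖d t‖ := by
        calc _ = ‖(1 - q) * κ * hh κ c (lv (l t) - 1) / hh κ c (lv (l t)) - (b t : ℂ)‖ *
              (pw k lv c (r t) * ‖hh κ c (lv (l t))‖) * ‖d t‖ := by ring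
          _ ≤ (1 - q) * (12 * s * w) * 1 * ‖d t‖ :=
            mul_le_mul_of_nonneg_right (mul_le_mul g2 p2 (mul_nonneg w2 hn) sw) dn
      linarith
    exact le_of_mul_le_mul_left (hg.trans hr) hq
  -- the sum over the centres
  have tot := sum_le_sum one
  rw [← mul_sum, sum_comm, sum_const, card_range, nsmul_eq_mul, ← mul_sum] at tot
  have low : ∑ t ∈ range m, k ^ 2 / 2 * ‖d t‖ ≤ ∑ t ∈ range m, ∑ c ∈ range (s + 1),
      pw k lv c (l t) * pw k lv c (r t) * (‖hh κ c (lv (l t))‖ * ‖d t‖) := by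
    refine sum_le_sum fun t ht => ?_
    have ht' := mem_range.1 ht
    obtain ⟨h3, h4⟩ := hlt t ht'
    have hmem : (lv (l t)).toNat ∈ range (s + 1) := by
      rw [mem_range]
      omega
    refine le_trans ?_ (single_le_sum (f := fun c : ℕ => pw k lv c (l t) * pw k lv c (r t) *
      (‖hh κ c (lv (l t))‖ * ‖d t‖)) (fun c _ => mul_nonneg (mul_nonneg (pw_nonneg k0 k1 _ _ _)
      (pw_nonneg k0 k1 _ _ _)) (mul_nonneg (norm_nonneg _) (norm_nonneg _))) hmem)
    rw [show (((lv (l t)).toNat : ℕ) : ℤ) = lv (l t) by omega]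
    unfold pw
    have e1 : hh k (lv (l t)) (lv (l t) + 1) = k⁻¹ := by
      unfold hh
      rw [show (lv (l t) + 1 - lv (l t)).natAbs = 1 by omega]
      rfl
    have e2 : hh k (lv (l t)) (lv (l t) - 1) = k⁻¹ := by
      unfold hh
      rw [show (lv (l t) - 1 - lv (l t)).natAbs = 1 by omega]
      rfl
    rw [hlr t ht', show lv (l t) - 1 + 1 = lv (l t) by ring, hh_self, hh_self, e1, e2]
    have : ‖(2 : ℂ)‖ = 2 := by norm_num
    rw [this, inv_inv]
    have dn := norm_nonneg (d t)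
    apply le_of_eq
    ring
  rw [← mul_sum] at low
  obtain ⟨D, hD⟩ : ∃ D, D = ∑ t ∈ range m, ‖d t‖ := ⟨_, rfl⟩
  rw [← hD] at tot low
  have D0 : 0 ≤ D := by
    rw [hD]
    exact sum_nonneg fun t _ => norm_nonneg _
  have fin : k ^ 2 / 2 * D ≤ (Fintype.card ι * (k / 2)) * (((s + 1 : ℕ) : ℝ) * (12 * s * w * 2 * D)) := low.trans tot
  have hD0 : D = 0 := by
    by_contra hne
    have D1 : 0 < D := lt_of_le_of_ne D0 (Ne.symm hne)
    have f1 : (Fintype.card ι * (k / 2)) * (((s + 1 : ℕ) : ℝ) * (12 * s * w * 2 * D)) =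
        (k / 2 * D) * (24 * (Fintype.card ι : ℝ) * (s * (s + 1)) * w) := by
      push_cast
      ring
    have f2 : (k / 2 * D) * (24 * (Fintype.card ι : ℝ) * (s * (s + 1)) * w) < (k / 2 * D) * k :=
      mul_lt_mul_of_pos_left (h2.trans_le kc) (by positivity)
    rw [f1] at fin
    have f3 : k ^ 2 / 2 * D = (k / 2 * D) * k := by ring
    linarith
  rw [hD] at hD0
  have h3 := (sum_eq_zero_iff_of_nonneg (fun t _ => norm_nonneg (d t))).1 hD0 t0 (mem_range.2 ht0)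
  exact norm_eq_zero.1 h3

end Pool.Agent.Helper2.GD
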