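import Pool.Agent.Helper2.GD.Glue
import Pool.Agent.Helper57.GD.Half

/-!
# The strip without zeros in the form of `Helper57.GD.NZ`
-/

set_option autoImplicit false

namespace Pool.Agent.Helper2.GD

open Polynomial Pool.Agent.Helper57.EV Pool.Agent.Helper57.EV2 Pool.Agent.Helper57.PD Pool.Agent.Helper85.Exp
  Pool.Agent.Helper60.EV2 Pool.Agent.Helper27.EV2 Pool.Agent.Helper2.PD Pool.Agent.Helper16.PD Pool.Agent.Helper8.GD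

variable {P : Type} [Fintype P] {G : Sh P} {s : ℕ}

/-- from the strip right of `4 * c₀` and the far bound to the whole strip -/
theorem nz_of_far {p : ℤ[X]} {T c₀ w₀ : ℝ} (hc : 4 * c₀ + w₀ / 10 ≤ 1 / (√T + 1))
    (hF : Pool.Agent.Helper57.GD.FZ T p)
    (hS : ∀ z : ℂ, z ≠ 0 → ‖z‖ < 1 → 4 * c₀ ≤ z.re → 10 * |z.im| ≤ w₀ → aeval (z⁻¹ - z) p ≠ 0) :
    Pool.Agent.Helper57.GD.NZ (w₀ / 10) p := by
  intro z hz hre him h0
  have hz0 : z ≠ 0 := by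
    rintro rfl
    simp at hre
  have hn0 : 0 < ‖z‖ := norm_pos_iff.2 hz0
  have h1 := hF _ h0
  have h2 : ‖z⁻¹ - z‖ ≤ √T := Real.le_sqrt_of_sq_le h1
  have h3 : ‖z⁻¹‖ ≤ √T + 1 := by
    have h4 : z⁻¹ = (z⁻¹ - z) + z := by ring
    calc ‖z⁻¹‖ = ‖(z⁻¹ - z) + z‖ := by rw [← h4]
      _ ≤ ‖z⁻¹ - z‖ + ‖z‖ := norm_add_le _ _
      _ ≤ √T + 1 := by linarith
  have hs0 : 0 < √T + 1 := by positivity
  have h5 : 1 / (√T + 1) ≤ ‖z‖ := by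
    rw [norm_inv] at h3
    rw [div_le_iff₀ hs0]
    have h6 : ‖z‖ * ‖z‖⁻¹ ≤ ‖z‖ * (√T + 1) := mul_le_mul_of_nonneg_left h3 hn0.le
    rwa [mul_inv_cancel₀ hn0.ne'] at h6
  have h7 : ‖z‖ ≤ |z.re| + |z.im| := Complex.norm_le_abs_re_add_abs_im z
  rw [abs_of_pos hre] at h7
  exact hS z hz0 hz (by linarith) (by linarith) h0

/-- **The whole strip, of a positive diagram.** -/
theorem nz {w₀ c₀ T : ℝ} (hw : 0 < w₀) (hw1 : w₀ ≤ 1 / 10) (hwc : w₀ ≤ c₀) (hc : 4 * c₀ + w₀ / 10 ≤ 1 / (√T + 1))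
    (hL : Leg2 s w₀ c₀) (hF : FarB s T) (h : Good s G) (b : P) {nab : Dg G → ℤ[X]} (hn : Cs nab) :
    Pool.Agent.Helper57.GD.NZ (w₀ / 10) (nab (allPos G)) :=
  nz_of_far hc (hF P G h ⟨b⟩ nab hn) fun _ hz0 hz1 h1 h2 => strip hw hw1 hwc hL h b hn hz0 hz1 h1 h2

/-- the same from the non-vanishing of the face determinant on the second leg -/
theorem nz_det {w₀ c₀ T : ℝ} (hw : 0 < w₀) (hw1 : w₀ ≤ 1 / 10) (hwc : w₀ ≤ c₀) (hc : 4 * c₀ + w₀ / 10 ≤ 1 / (√T + 1))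
    (h : Good s G) (b : P) {nab : Dg G → ℤ[X]} (hn : Cs nab)
    (hL : ∀ e : Cr G ≃ (fdG h b).Col, ∀ r : ℝ, 0 ≤ r → r < 1 → ∀ κ : ℂ, c₀ ≤ κ.re → κ.re ≤ 1 / 2 + w₀ → |κ.im| ≤ w₀ →
      Fdet h b e r κ ≠ 0)
    (hF : Pool.Agent.Helper57.GD.FZ T (nab (allPos G))) :
    Pool.Agent.Helper57.GD.NZ (w₀ / 10) (nab (allPos G)) := by
  classical
  refine nz_of_far hc hF fun z hz0 hz hre him => ?_
  obtain ⟨α, nab', e, hn', -, -, hform, hA⟩ := one_shadow h b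
  have : Nonempty P := ⟨b⟩
  have hu : nab = nab' := Cs.unique hn hn'
  rw [hu]
  refine nab_ne_of_Fdet h b hform hA hz0 (one_add_sq_ne hz) ?_
  exact no_zero_of_legs (Fdet_diff h b e) hw hw1 (by linarith) hwc (fun ζ hζ k hk => Fdet_leg1 h b e hζ hk.ne')
    (fun r hr0 hr1 k hk1 hk2 hk3 => hL e r hr0 hr1 k hk1 hk2 hk3) hz hre him

end Pool.Agent.Helper2.GD
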