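import Pool.Agent.Helper2.GD.NZ
import Pool.Agent.Helper2.GD.Leg2Lin
import Pool.Agent.Helper85.GD.FarFZ

/-!
# The strip without zeros, with explicit constants
-/

set_option autoImplicit false

namespace Pool.Agent.Helper2.GD

open Polynomial Pool.Agent.Helper57.EV Pool.Agent.Helper57.EV2 Pool.Agent.Helper57.PD Pool.Agent.Helper85.Exp
  Pool.Agent.Helper60.EV2 Pool.Agent.Helper27.EV2 Pool.Agent.Helper2.PD Pool.Agent.Helper16.PD Pool.Agent.Helper8.GD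

variable {P : Type} [Fintype P] {G : Sh P} {s : ℕ}

/-- **No zeros in the strip `|Im| ≤ 1 / (4 * 10 ^ 7 * s ^ 6)`.** -/
theorem nz_expl (h : Good s G) (hs : 1 ≤ s) (hne : Nonempty P) {nab : Dg G → ℤ[X]} (hn : Cs nab) :
    Pool.Agent.Helper57.GD.NZ (1 / (4 * 10 ^ 7 * (s : ℝ) ^ 6)) (nab (allPos G)) := by
  obtain ⟨b⟩ := hne
  have s1 : (1 : ℝ) ≤ s := by exact_mod_cast hs
  have s0 : (0 : ℝ) < s := by linarith
  obtain ⟨c₀, hc₀⟩ : ∃ c₀ : ℝ, c₀ = 1 / (8040 * s) := ⟨_, rfl⟩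
  obtain ⟨w, hw⟩ : ∃ w : ℝ, w = c₀ / (450 * (s : ℝ) ^ 5) := ⟨_, rfl⟩
  have hc0 : 0 < c₀ := by rw [hc₀]; positivity
  have hc1 : c₀ ≤ 1 / 8040 := by
    rw [hc₀]
    exact one_div_le_one_div_of_le (by norm_num) (by linarith)
  have hw0 : 0 < w := by rw [hw]; positivity
  have s5 : (1 : ℝ) ≤ (s : ℝ) ^ 5 := one_le_pow₀ s1
  have hwc : w ≤ c₀ / 450 := by
    rw [hw]
    exact div_le_div_of_nonneg_left hc0.le (by norm_num) (by linarith)
  have h3 : 4 * c₀ + w / 10 ≤ 1 / (√((1003 * (s : ℝ)) ^ 2) + 1) := by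
    rw [Real.sqrt_sq (by positivity)]
    have h5 : 1 / (1004 * (s : ℝ)) ≤ 1 / (1003 * (s : ℝ) + 1) := one_div_le_one_div_of_le (by positivity) (by linarith)
    have h6 : 1 / (1004 * (s : ℝ)) = 8040 / 1004 * c₀ := by
      rw [hc₀]
      field_simp
    have h7 : 4 * c₀ + w / 10 ≤ 8040 / 1004 * c₀ := by linarith
    linarith
  have hleg : Leg2 s w c₀ := by
    refine leg2_lin hc0 (by linarith) hw0.le ?_
    have h4 : ((s : ℝ) + 2) ^ 2 ≤ 9 * (s : ℝ) ^ 2 := by nlinarith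
    calc 50 * ((s : ℝ) + 2) ^ 2 * (s * s * s) * w ≤ 50 * (9 * (s : ℝ) ^ 2) * (s * s * s) * w := by gcongr
      _ = c₀ := by
        rw [hw]
        field_simp
        ring
  have hfar : FarB s ((1003 * (s : ℝ)) ^ 2) := fun P' _ G' hG' hne' nab' hn' z hz =>
    Pool.Agent.Helper85.GD.fz hG' hn' z hz
  have h4 := nz hw0 (by linarith) (by linarith) h3 hleg hfar h b hn
  have e1 : 1 / (4 * 10 ^ 7 * (s : ℝ) ^ 6) ≤ w / 10 := by
    have e2 : w / 10 = 1 / (36180000 * (s : ℝ) ^ 6) := by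
      rw [hw, hc₀]
      field_simp
      norm_num
    rw [e2]
    exact one_div_le_one_div_of_le (by positivity) (mul_le_mul_of_nonneg_right (by norm_num) (by positivity))
  exact fun z z1 z2 z3 => h4 z z1 z2 (z3.trans e1)

end Pool.Agent.Helper2.GD
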