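import Pool.Agent.Helper2.GD.HalfDisc

/-!
# A strip without zeros from the two legs
-/

set_option autoImplicit false

namespace Pool.Agent.Helper2.GD

open Complex Set

/-- **A strip without zeros.** -/
theorem no_zero_of_legs {F : ℂ → ℂ → ℂ} (hF : Differentiable ℂ (fun q : ℂ × ℂ => F q.1 q.2)) {β c₀ : ℝ} (hβ : 0 < β) (hβ1 : β ≤ 1 / 10)
    (hc₀ : 0 < c₀) (hβc : β ≤ c₀)
    (leg1 : ∀ ζ : ℂ, ‖ζ‖ < 1 → ∀ k : ℝ, 0 < k → F ζ k ≠ 0)
    (leg2 : ∀ r : ℝ, 0 ≤ r → r < 1 → ∀ k : ℂ, c₀ ≤ k.re → k.re ≤ 1 / 2 + β → |k.im| ≤ β → F r k ≠ 0)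
    {s : ℂ} (hs1 : ‖s‖ < 1) (hre : 4 * c₀ ≤ s.re) (him : 10 * |s.im| ≤ β) : F (-s ^ 2) (s / (1 + s ^ 2)) ≠ 0 := by
  obtain ⟨p, hp⟩ : ∃ p, p = s.re := ⟨_, rfl⟩
  obtain ⟨q, hq⟩ : ∃ q, q = s.im := ⟨_, rfl⟩
  obtain ⟨ρ, hρ⟩ : ∃ ρ, ρ = ‖s‖ := ⟨_, rfl⟩
  have hp0 : 0 < p := by rw [hp]; linarith
  have hpρ : p ≤ ρ := by rw [hp, hρ]; exact re_le_norm s
  have hρ0 : 0 < ρ := by linarith
  have hρ1 : ρ < 1 := by rw [hρ]; exact hs1
  have hρ2 : ρ ^ 2 = p ^ 2 + q ^ 2 := by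
    rw [hρ, ← normSq_eq_norm_sq, normSq_apply, hp, hq]
    ring
  rw [← hp] at hre
  rw [← hq] at him
  have hq0 := abs_nonneg q
  have hqs : q ^ 2 = |q| ^ 2 := (sq_abs q).symm
  have hq100 : |q| ≤ 1 / 100 := by linarith
  have hq2 : q ^ 2 ≤ 1 / 100 * |q| := by rw [hqs]; nlinarith
  -- the modulus of 1 + s ^ 2
  obtain ⟨E, hE⟩ : ∃ E, E = (1 + ρ ^ 2) ^ 2 - 4 * q ^ 2 := ⟨_, rfl⟩
  have hEn : normSq (1 + s ^ 2) = E := by
    rw [hE, hρ2, normSq_apply, hp, hq]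
    simp only [pow_two, add_re, add_im, one_re, one_im, mul_re, mul_im]
    ring
  have hρρ : 2 * ρ ≤ 1 + ρ ^ 2 := by nlinarith [sq_nonneg (ρ - 1)]
  have hR1 : 1 ≤ 1 + ρ ^ 2 := by nlinarith
  have hRR : 1 + ρ ^ 2 ≤ (1 + ρ ^ 2) ^ 2 := by nlinarith
  have hElow : 1 + ρ ^ 2 - 1 / 1000 ≤ E := by
    rw [hE]
    nlinarith
  have hEpos : 0 < E := by linarith
  have hE0 : E ≠ 0 := hEpos.ne'
  have hE99 : 99 / 100 ≤ E := by linarith
  have hsne : 1 + s ^ 2 ≠ 0 := by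
    intro h
    rw [h, map_zero] at hEn
    linarith
  have h1ρ : 1 - ρ ^ 2 ≠ 0 := by nlinarith
  -- the parameters
  obtain ⟨b, hb⟩ : ∃ b : ℝ → ℝ, b = fun t => -(q * (1 - ρ ^ 2) / E) * (t ^ 2 + 2 * t * p + ρ ^ 2) / (t ^ 2 - ρ ^ 2) := ⟨_, rfl⟩
  obtain ⟨a, ha⟩ : ∃ a : ℝ → ℝ, a = fun t => p * (1 + ρ ^ 2) / E - (q * (1 - ρ ^ 2) / E) * (2 * t * q) / (t ^ 2 - ρ ^ 2) := ⟨_, rfl⟩
  have hden : (1 : ℝ) ^ 2 - ρ ^ 2 ≠ 0 := by rw [one_pow]; exact h1ρ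
  have hb1 : b 1 = -(q * (1 + 2 * p + ρ ^ 2)) / E := by
    rw [hb]
    show -(q * (1 - ρ ^ 2) / E) * (1 ^ 2 + 2 * 1 * p + ρ ^ 2) / (1 ^ 2 - ρ ^ 2) = _
    rw [one_pow, mul_one, div_eq_div_iff h1ρ hE0]
    have : q * (1 - ρ ^ 2) / E * E = q * (1 - ρ ^ 2) := div_mul_cancel₀ _ hE0
    linear_combination (-(1 + 2 * p + ρ ^ 2)) * this
  have ha1 : a 1 = (p * (1 + ρ ^ 2) - 2 * q ^ 2) / E := by
    rw [ha]
    show p * (1 + ρ ^ 2) / E - (q * (1 - ρ ^ 2) / E) * (2 * 1 * q) / (1 ^ 2 - ρ ^ 2) = _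
    rw [one_pow, mul_one]
    have e1 : q * (1 - ρ ^ 2) / E * (2 * q) / (1 - ρ ^ 2) = 2 * q ^ 2 / E := by
      rw [div_eq_div_iff h1ρ hE0]
      have : q * (1 - ρ ^ 2) / E * E = q * (1 - ρ ^ 2) := div_mul_cancel₀ _ hE0
      linear_combination (2 * q) * this
    rw [e1]
    ring
  have hb1' : |b 1| ≤ 5 * |q| := by
    rw [hb1, abs_div, abs_neg, abs_mul, abs_of_pos hEpos, abs_of_pos (by positivity : 0 < 1 + 2 * p + ρ ^ 2), div_le_iff₀ hEpos]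
    have h1 : 1 + 2 * p + ρ ^ 2 ≤ 5 * E := by linarith
    calc |q| * (1 + 2 * p + ρ ^ 2) ≤ |q| * (5 * E) := mul_le_mul_of_nonneg_left h1 hq0
      _ = 5 * |q| * E := by ring
  have ha1' : a 1 ≤ 1 / 2 + 3 / 100 * |q| := by
    rw [ha1, div_le_iff₀ hEpos]
    have h1 : p * (1 + ρ ^ 2) ≤ (1 + ρ ^ 2) / 2 * (1 + ρ ^ 2) := mul_le_mul_of_nonneg_right (by linarith) (by linarith)
    have h2 : (1 + ρ ^ 2) / 2 * (1 + ρ ^ 2) = (E + 4 * q ^ 2) / 2 := by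
      rw [hE]
      ring
    have h3 : 0 ≤ 3 / 100 * |q| * E := by positivity
    have e : (1 / 2 + 3 / 100 * |q|) * E = 1 / 2 * E + 3 / 100 * |q| * E := by ring
    rw [e]
    linarith
  have ha1'' : p / 2 - 3 / 100 * |q| ≤ a 1 := by
    rw [ha1, le_div_iff₀ hEpos]
    have h1 : p / 2 * E ≤ p / 2 * (1 + ρ ^ 2) ^ 2 := by
      refine mul_le_mul_of_nonneg_left ?_ (by linarith)
      rw [hE]
      nlinarith [sq_nonneg q]
    have h2 : p / 2 * (1 + ρ ^ 2) ^ 2 ≤ p * (1 + ρ ^ 2) := by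
      have h3 : (1 + ρ ^ 2) ^ 2 ≤ 2 * (1 + ρ ^ 2) := by
        rw [pow_two]
        exact mul_le_mul_of_nonneg_right (by nlinarith) (by linarith)
      calc p / 2 * (1 + ρ ^ 2) ^ 2 ≤ p / 2 * (2 * (1 + ρ ^ 2)) := mul_le_mul_of_nonneg_left h3 (by linarith)
        _ = p * (1 + ρ ^ 2) := by ring
    have h3 : 3 / 100 * |q| * (99 / 100) ≤ 3 / 100 * |q| * E := mul_le_mul_of_nonneg_left hE99 (by positivity)
    have e : (p / 2 - 3 / 100 * |q|) * E = p / 2 * E - 3 / 100 * |q| * E := by ring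
    rw [e]
    linarith only [h1, h2, h3, hq2, hq0]
  have g1 : c₀ < a 1 - |b 1| := by linarith
  have g2 : a 1 + |b 1| < 1 / 2 + β := by linarith
  have g3 : |b 1| < β := by linarith
  have hcont_a : ContinuousAt a 1 := by
    rw [ha]
    refine ContinuousAt.sub continuousAt_const (ContinuousAt.div ?_ ?_ hden)
    · fun_prop
    · fun_prop
  have hcont_b : ContinuousAt b 1 := by
    rw [hb]
    refine ContinuousAt.div ?_ ?_ hden
    · fun_prop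
    · fun_prop
  have hev1 : ∀ᶠ t in nhds (1 : ℝ), c₀ < a t - |b t| :=
    (hcont_a.sub hcont_b.abs).eventually_const_lt g1
  have hev2 : ∀ᶠ t in nhds (1 : ℝ), a t + |b t| < 1 / 2 + β :=
    (hcont_a.add hcont_b.abs).eventually_lt_const g2
  have hev3 : ∀ᶠ t in nhds (1 : ℝ), |b t| < β :=
    hcont_b.abs.eventually_lt_const g3
  have hev4 : ∀ᶠ t in nhds (1 : ℝ), ρ < t := lt_mem_nhds hρ1
  obtain ⟨t, ⟨⟨⟨hta, htb⟩, htc⟩, htρ'⟩, ht1⟩ : ∃ t : ℝ, (((c₀ < a t - |b t| ∧ a t + |b t| < 1 / 2 + β) ∧ |b t| < β) ∧ ρ < t) ∧ t < 1 := by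
    have h1 : ∀ᶠ t in nhdsWithin (1 : ℝ) (Set.Iio 1), (((c₀ < a t - |b t| ∧ a t + |b t| < 1 / 2 + β) ∧ |b t| < β) ∧ ρ < t) :=
      nhdsWithin_le_nhds (((hev1.and hev2).and hev3).and hev4)
    have h2 : ∀ᶠ t in nhdsWithin (1 : ℝ) (Set.Iio 1), t < 1 := self_mem_nhdsWithin
    exact (h1.and h2).exists
  have ht0 : 0 < t := hρ0.trans htρ'
  -- the point of the half disc
  obtain ⟨x, hx⟩ : ∃ x : ℂ, x = ((t : ℂ) - s) / (t + s) := ⟨_, rfl⟩
  have hM : normSq ((t : ℂ) + s) = t ^ 2 + 2 * t * p + ρ ^ 2 := by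
    rw [hρ2, normSq_apply, hp, hq]
    simp only [add_re, add_im, ofReal_re, ofReal_im]
    ring
  have hMpos : 0 < t ^ 2 + 2 * t * p + ρ ^ 2 := by positivity
  have hts : (t : ℂ) + s ≠ 0 := by
    intro h
    rw [h, map_zero] at hM
    linarith
  have htρ : 0 < t ^ 2 - ρ ^ 2 := sub_pos.2 (pow_lt_pow_left₀ htρ' hρ0.le two_ne_zero)
  have hxre : x.re = (t ^ 2 - ρ ^ 2) / (t ^ 2 + 2 * t * p + ρ ^ 2) := by
    rw [hx, div_re, hM]
    simp only [sub_re, sub_im, add_re, add_im, ofReal_re, ofReal_im, ← hp, ← hq]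
    rw [← add_div]
    congr 1
    rw [hρ2]
    ring
  have hxim : x.im = -(2 * t * q) / (t ^ 2 + 2 * t * p + ρ ^ 2) := by
    rw [hx, div_im, hM]
    simp only [sub_re, sub_im, add_re, add_im, ofReal_re, ofReal_im, ← hp, ← hq]
    rw [← sub_div]
    congr 1
    ring
  have hx0 : 0 < x.re := by rw [hxre]; positivity
  have hx1 : ‖x‖ < 1 := by
    have h1 : ‖(t : ℂ) - s‖ < ‖(t : ℂ) + s‖ := by
      rw [← sq_lt_sq₀ (norm_nonneg _) (norm_nonneg _), ← normSq_eq_norm_sq, ← normSq_eq_norm_sq, normSq_apply, normSq_apply]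
      simp only [sub_re, sub_im, add_re, add_im, ofReal_re, ofReal_im, ← hp, ← hq]
      nlinarith [mul_pos ht0 hp0]
    rw [hx, norm_div, div_lt_one (norm_pos_iff.2 hts)]
    exact h1
  obtain ⟨δ, hδ⟩ : ∃ δ, δ = 1 - t ^ 2 := ⟨_, rfl⟩
  have hδ0 : 0 < δ := by rw [hδ]; exact sub_pos.2 (pow_lt_one₀ ht0.le ht1 two_ne_zero)
  have hδ1 : δ ≤ 1 := by rw [hδ]; exact sub_le_self _ (sq_nonneg t)
  have hzt : zt δ x = -s ^ 2 := by
    have htc : (t : ℂ) ≠ 0 := by exact_mod_cast ht0.ne'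
    have e1 : (1 - x) / (1 + x) = s / t := by
      have e2 : 1 - x = 2 * s / (t + s) := by
        rw [hx]
        field_simp
        ring
      have e3 : 1 + x = 2 * t / (t + s) := by
        rw [hx]
        field_simp
        ring
      rw [e2, e3]
      field_simp
    unfold zt
    rw [e1, hδ]
    push_cast
    field_simp
    ring
  have hkp : kp (a t) (b t) x = s / (1 + s ^ 2) := by
    have e1 : (s / (1 + s ^ 2)).re = p * (1 + ρ ^ 2) / E := by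
      rw [div_re, hEn, hρ2]
      simp only [pow_two, add_re, add_im, one_re, one_im, mul_re, mul_im, ← hp, ← hq]
      ring
    have e2 : (s / (1 + s ^ 2)).im = q * (1 - ρ ^ 2) / E := by
      rw [div_im, hEn, hρ2]
      simp only [pow_two, add_re, add_im, one_re, one_im, mul_re, mul_im, ← hp, ← hq]
      ring
    have hM0 := hMpos.ne'
    have hD0 := htρ.ne'
    apply Complex.ext
    · rw [e1]
      unfold kp
      simp only [sub_re, mul_re, mul_im, ofReal_re, ofReal_im, I_re, I_im]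
      rw [hxre, hxim, ha, hb]
      simp only
      field_simp
      ring
    · rw [e2]
      unfold kp
      simp only [sub_im, mul_re, mul_im, ofReal_re, ofReal_im, I_re, I_im]
      rw [hxre, hxim, hb]
      simp only
      field_simp
      ring
  have hmem : x ∈ closure HD := by
    apply subset_closure
    refine ⟨hx0, ?_⟩
    rw [Metric.mem_ball, dist_zero_right]
    exact hx1
  have := half_disc hF hδ0 hδ1 leg1 leg2 (a := a t) (b := b t) hc₀ hta.le htb.le htc.le hx0.le hx1.le hmem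
  rwa [hzt, hkp] at this

end Pool.Agent.Helper2.GD
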